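import Pool.Agent.H623R3.JC.Stmts

/-!
Primitive recursiveness of the codings.
-/

set_option autoImplicit false

namespace Pool.Agent.H623R3.JC

attribute [fun_prop] Primrec

section tags
variable {α β γ : Type} [Primcodable α] [Primcodable β] [Primcodable γ]

@[fun_prop] theorem pr_id : Primrec (fun x : α => x) := Primrec.id
@[fun_prop] theorem pr_const (b : β) : Primrec (fun _ : α => b) := Primrec.const b
@[fun_prop] theorem pr_comp {f : β → γ} {g : α → β} (hf : Primrec f) (hg : Primrec g) :
    Primrec (fun x => f (g x)) := hf.comp hg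
@[fun_prop] theorem pr_fst {f : α → β × γ} (hf : Primrec f) : Primrec (fun x => (f x).1) :=
  Primrec.fst.comp hf
@[fun_prop] theorem pr_snd {f : α → β × γ} (hf : Primrec f) : Primrec (fun x => (f x).2) :=
  Primrec.snd.comp hf
@[fun_prop] theorem pr_pair {f : α → β} {g : α → γ} (hf : Primrec f) (hg : Primrec g) :
    Primrec (fun x => (f x, g x)) := hf.pair hg
@[fun_prop] theorem pr_add {f g : α → ℕ} (hf : Primrec f) (hg : Primrec g) :
    Primrec (fun x => f x + g x) := Primrec.nat_add.comp hf hg
@[fun_prop] theorem pr_sub {f g : α → ℕ} (hf : Primrec f) (hg : Primrec g) :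
    Primrec (fun x => f x - g x) := Primrec.nat_sub.comp hf hg
@[fun_prop] theorem pr_mul {f g : α → ℕ} (hf : Primrec f) (hg : Primrec g) :
    Primrec (fun x => f x * g x) := Primrec.nat_mul.comp hf hg
@[fun_prop] theorem pr_div {f g : α → ℕ} (hf : Primrec f) (hg : Primrec g) :
    Primrec (fun x => f x / g x) := Primrec.nat_div.comp hf hg
@[fun_prop] theorem pr_mod {f g : α → ℕ} (hf : Primrec f) (hg : Primrec g) :
    Primrec (fun x => f x % g x) := Primrec.nat_mod.comp hf hg
@[fun_prop] theorem pr_max {f g : α → ℕ} (hf : Primrec f) (hg : Primrec g) :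
    Primrec (fun x => max (f x) (g x)) := Primrec.nat_max.comp hf hg
@[fun_prop] theorem pr_natpair {f g : α → ℕ} (hf : Primrec f) (hg : Primrec g) :
    Primrec (fun x => Nat.pair (f x) (g x)) := Primrec₂.natPair.comp hf hg
@[fun_prop] theorem pr_unpair {f : α → ℕ} (hf : Primrec f) :
    Primrec (fun x => (f x).unpair) := Primrec.unpair.comp hf
@[fun_prop] theorem pr_append {f g : α → List β} (hf : Primrec f) (hg : Primrec g) :
    Primrec (fun x => f x ++ g x) := Primrec.list_append.comp hf hg
@[fun_prop] theorem pr_cons {f : α → β} {g : α → List β} (hf : Primrec f) (hg : Primrec g) :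
    Primrec (fun x => f x :: g x) := Primrec.list_cons.comp hf hg
@[fun_prop] theorem pr_length {f : α → List β} (hf : Primrec f) :
    Primrec (fun x => (f x).length) := Primrec.list_length.comp hf
@[fun_prop] theorem pr_getElem {f : α → List β} {g : α → ℕ} (hf : Primrec f)
    (hg : Primrec g) : Primrec (fun x => (f x)[g x]?) := Primrec.list_getElem?.comp hf hg
@[fun_prop] theorem pr_getD {f : α → List β} {g : α → ℕ} (d : β) (hf : Primrec f)
    (hg : Primrec g) : Primrec (fun x => (f x).getD (g x) d) := (Primrec.list_getD d).comp hf hg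
@[fun_prop] theorem pr_range {f : α → ℕ} (hf : Primrec f) : Primrec (fun x => List.range (f x)) :=
  Primrec.list_range.comp hf
@[fun_prop] theorem pr_take {f : α → ℕ} {g : α → List β} (hf : Primrec f) (hg : Primrec g) :
    Primrec (fun x => (g x).take (f x)) := Primrec.list_take.comp hf hg
@[fun_prop] theorem pr_encode {f : α → β} (hf : Primrec f) :
    Primrec (fun x => Encodable.encode (f x)) := Primrec.encode.comp hf

theorem pr_map {f : α → List β} {g : α → β → γ} (hf : Primrec f)
    (hg : Primrec fun p : α × β => g p.1 p.2) : Primrec fun a => (f a).map (g a) :=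
  Primrec.list_map hf hg.to₂

theorem pr_foldr {f : α → List β} {g : α → γ} {h : α → β → γ → γ} (hf : Primrec f)
    (hg : Primrec g) (hh : Primrec fun p : α × (β × γ) => h p.1 p.2.1 p.2.2) :
    Primrec fun a => (f a).foldr (fun b s => h a b s) (g a) :=
  Primrec.list_foldr (h := fun a p => h a p.1 p.2) hf hg hh.to₂

theorem pr_ite_lt {f g : α → ℕ} {h k : α → β} (hf : Primrec f) (hg : Primrec g)
    (hh : Primrec h) (hk : Primrec k) : Primrec fun a => if f a < g a then h a else k a :=
  Primrec.ite (Primrec.nat_lt.comp hf hg) hh hk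

theorem pr_ite_eq {f g : α → ℕ} {h k : α → β} (hf : Primrec f) (hg : Primrec g)
    (hh : Primrec h) (hk : Primrec k) : Primrec fun a => if f a = g a then h a else k a :=
  Primrec.ite (Primrec.eq.comp hf hg) hh hk

end tags

theorem prim_lst : Primrec lst := Primrec.ofNat (List ℕ)

theorem prim_cod : Primrec cod := Primrec.encode

/-- strong recursion on term codes -/
theorem prim_tc {α : Type} [Primcodable α] (F : α → ℕ → ℕ) (v : α → ℕ → ℕ) (op : α → ℕ → ℕ → ℕ → ℕ)
    (hv : Primrec fun p : α × ℕ => v p.1 p.2)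
    (hop : Primrec fun p : α × (ℕ × (ℕ × ℕ)) => op p.1 p.2.1 p.2.2.1 p.2.2.2)
    (h0 : ∀ a i, F a (2 * i) = v a i)
    (h1 : ∀ a i j n, F a (bterm i j n) = op a (F a i) (F a j) n) :
    Primrec fun p : α × ℕ => F p.1 p.2 := by
  have hg : Primrec₂ fun (a : α) (l : List ℕ) => (some (if l.length % 2 = 0 then v a (l.length / 2)
      else op a (l.getD (l.length / 2).unpair.1 0) (l.getD (l.length / 2).unpair.2.unpair.1 0)
        (l.length / 2).unpair.2.unpair.2) : Option ℕ) := by
    refine Primrec.option_some.comp ?_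
    refine pr_ite_eq (by fun_prop) (by fun_prop) ?_ ?_
    · exact hv.comp (g := fun p : α × List ℕ => (p.1, p.2.length / 2)) (by fun_prop)
    · exact hop.comp (g := fun p : α × List ℕ => (p.1, (p.2.getD (p.2.length / 2).unpair.1 0,
        (p.2.getD (p.2.length / 2).unpair.2.unpair.1 0, (p.2.length / 2).unpair.2.unpair.2))))
        (by fun_prop)
  refine Primrec.nat_strong_rec F hg fun a j => ?_
  simp only [List.length_map, List.length_range]
  have hget : ∀ i < j, ((List.range j).map (F a)).getD i 0 = F a i := by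
    intro i hi
    rw [List.getD_eq_getElem?_getD, List.getElem?_map, List.getElem?_range hi]
    rfl
  congr 1
  by_cases h : j % 2 = 0
  · rw [if_pos h]
    have : j = 2 * (j / 2) := by omega
    conv_rhs => rw [this, h0]
  · rw [if_neg h, hget _ (tc_lt1 h), hget _ (tc_lt2 h)]
    conv_rhs => rw [exists_bterm h, h1]

theorem prim_mv : Primrec mv := by
  have := prim_tc (α := Unit) (fun _ j => mv j) (fun _ i => i + 1) (fun _ a b _ => max a b)
    (by fun_prop) (by fun_prop) (fun _ i => mv_var i) (fun _ a b n => mv_bterm a b n)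
  exact this.comp (Primrec.pair (Primrec.const ()) Primrec.id)

theorem prim_tau {α : Type} [Primcodable α] {w : α → ℕ → ℕ} (hw : Primrec₂ w) :
    Primrec fun p : α × ℕ => tau (w p.1) p.2 := by
  have hw' : Primrec fun p : α × ℕ => w p.1 p.2 := hw
  refine prim_tc (fun a j => tau (w a) j) w (fun _ a b n => bterm a b n) hw' ?_
    (fun a i => tau_var (w a) i) (fun a i j n => tau_bterm (w a) i j n)
  unfold bterm
  fun_prop

theorem prim_sup : Primrec sup := by
  unfold sup
  have hl := prim_lst
  have hm := prim_mv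
  refine pr_foldr (f := fun z : ℕ => lst z.unpair.1) (g := fun _ => 0)
    (h := fun _ f acc => max (mv f.unpair.2) acc) ?_ (by fun_prop) ?_
  · exact hl.comp (by fun_prop)
  · exact pr_max (hm.comp (by fun_prop)) (by fun_prop)

theorem prim_sb {α : Type} [Primcodable α] {w : α → ℕ → ℕ} (hw : Primrec₂ w) :
    Primrec fun p : α × ℕ => sb (w p.1) p.2 := by
  unfold sb
  refine pr_natpair (prim_cod.comp (pr_map (prim_lst.comp (by fun_prop)) ?_)) (by fun_prop)
  refine pr_natpair (by fun_prop) ?_
  exact (prim_tau hw).comp (g := fun p : (α × ℕ) × ℕ => (p.1.1, p.2.unpair.2)) (by fun_prop)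

theorem prim_con {α : Type} [Primcodable α] {w : α → ℕ → ℕ} (hw : Primrec₂ w) :
    Primrec fun p : α × ℕ => con (w p.1) p.2 := by
  have hw' : Primrec fun p : α × ℕ => w p.1 p.2 := hw
  unfold con
  refine prim_cod.comp (pr_map (by fun_prop) ?_)
  refine pr_natpair (by fun_prop) ?_
  exact hw'.comp (g := fun p : (α × ℕ) × ℕ => (p.1.1, p.2)) (by fun_prop)

theorem prim_lft : Primrec₂ lft := by
  unfold lft
  refine pr_natpair ?_ (prim_cod.comp (by fun_prop))
  have := prim_con (α := Unit) (w := fun _ i => 2 * i) (by unfold Primrec₂; fun_prop)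
  exact this.comp (g := fun p : ℕ × ℕ => ((), p.1)) (by fun_prop)

theorem prf_prim : S_prim :=
  ⟨prim_lst, prim_cod, prim_mv, prim_sup, prim_lft, fun _ _ _ hw =>
    ⟨prim_tau hw, prim_sb hw, prim_con hw⟩⟩

end Pool.Agent.H623R3.JC
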