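import Pool.Agent.H623R3.JC.Step0
import Pool.Agent.H623R3.JC.P_PRIM

/-!
Step 0: computability and assembly.
-/

set_option autoImplicit false

open FirstOrder FirstOrder.Language Pool.Agent.Helper227.EN

namespace Pool.Agent.H623R3.JC.Step0

open Pool.Agent.Helper578.JD Pool.Agent.Helper578.JD.Oracle Pool.Agent.Helper578.JD.Defs
open Pool.Agent.Helper578.JD.RE

theorem prim_el (x0 : ℕ) : Primrec fun p : List Ent × ℕ => el x0 p.1 p.2 := by
  unfold el
  exact pr_ite_eq (by fun_prop) (by fun_prop) (by fun_prop) (by fun_prop)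

theorem prim_litv : Primrec litv := by
  unfold litv
  refine pr_map (by fun_prop) ?_
  refine pr_add (by fun_prop) ?_
  exact pr_ite_eq (f := fun p : List Bool × ℕ => Encodable.encode (p.1.getD p.2 false))
    (g := fun _ => 1) (h := fun _ => 1) (k := fun _ => 0) (by fun_prop) (by fun_prop) (by fun_prop)
    (by fun_prop) |>.of_eq fun p => by
      cases p.1.getD p.2 false <;> simp

theorem prim_conL : Primrec conL := by
  have h := prim_con (α := List ℕ) (w := fun L i => L.getD i 0) (by unfold Primrec₂; fun_prop)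
  exact h.comp (g := fun L : List ℕ => (L, L.length)) (by fun_prop)

theorem prim_wz : Primrec₂ fun (a : List ℕ × (ℕ × (ℕ × ℕ))) (t : ℕ) =>
    wz a.1 a.2.1 a.2.2.1 a.2.2.2 t := by
  unfold wz Primrec₂ bterm
  exact pr_ite_lt (by fun_prop) (by fun_prop) (by fun_prop) (by fun_prop)

theorem prim_newL : Primrec fun a : (List ℕ × (ℕ × (ℕ × ℕ))) × List Bool =>
    newL a.1.1 a.1.2.1 a.1.2.2.1 a.1.2.2.2 a.2 := by
  unfold newL
  have hc := prim_conL
  have hl := prim_litv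
  have hk := prim_cod
  have hz : Primrec fun a : (List ℕ × (ℕ × (ℕ × ℕ))) × List Bool =>
      Nat.pair (conL a.1.1) (cod (litv a.2)) := by fun_prop
  refine pr_append (pr_map (by fun_prop) ?_) (by fun_prop)
  have hw : Primrec fun p : (List ℕ × (ℕ × (ℕ × ℕ))) × ℕ => wz p.1.1 p.1.2.1 p.1.2.2.1 p.1.2.2.2 p.2 :=
    prim_wz
  refine hw.comp (g := fun p : ((List ℕ × (ℕ × (ℕ × ℕ))) × List Bool) × ℕ =>
    ((p.1.1.1, (p.1.1.2.1, (p.1.1.2.2.1, Nat.pair (conL p.1.1.1) (cod (litv p.1.2))))), p.2)) ?_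
  fun_prop

/-- bound for terms -/
def bm (L : List ℕ) : ℕ := L.foldr (fun a b => max (mv a) b) 0

theorem prim_bm : Primrec bm := by
  unfold bm
  have hm := prim_mv
  exact pr_foldr (f := fun Y : List ℕ => Y) (g := fun _ => 0) (h := fun _ a b => max (mv a) b)
    (by fun_prop) (by fun_prop) (by fun_prop)

theorem mv_le_bm {L : List ℕ} {j : ℕ} (h : j ∈ L) : mv j ≤ bm L := by
  unfold bm
  induction L with
  | nil => simp at h
  | cons a L ih =>
    rw [List.foldr_cons]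
    rcases List.mem_cons.1 h with rfl | h
    · exact le_max_left _ _
    · exact (ih h).trans (le_max_right _ _)

section
variable {M : Type} [CommSemiring M] [LinearOrder M] [LA.Structure M]
variable {B : Set ℕ} {x0 : ℕ} {C : ℕ → M} {q : ℕ → ℕ}

/-- comparison of indices -/
def Cmp (B : Set ℕ) (x m a : ℕ) : Prop := ∀ u, sup u ≤ m → (u ∈ Rw B x ↔ u ∈ Rw B a)

theorem isT_iff (hq : ∀ k, IsT 1 k C (Rw B (q k))) (x m : ℕ) :
    IsT 1 m C (Rw B x) ↔ Cmp B x m (q m) := by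
  unfold IsT Cmp
  refine forall₂_congr fun u hu => ?_
  rw [← hq m u hu]

/-- correctness of the witnesses in terms of indices -/
def SkI (B : Set ℕ) (L : List ℕ) (x j1 j2 a : ℕ) : Prop :=
  ∀ E : ℕ, Nat.pair (conL L) E ∈ Rw B x →
    ∀ e ∈ lst E, (sb (wz L j1 j2 (Nat.pair (conL L) E)) (lft (e / 2 + 1) (e / 2)) ∈ Rw B a ↔
      e % 2 = 1)

theorem sk_iff (hq : ∀ k, IsT 1 k C (Rw B (q k))) (L : List ℕ) (x j1 j2 : ℕ) :
    Sk B C L x j1 j2 ↔ SkI B L x j1 j2 (q (bm L + (j1 + 1) + (j2 + 1))) := by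
  unfold Sk SkI
  refine forall₂_congr fun E _ => forall₂_congr fun e _ => ?_
  unfold Lit
  rw [Ty0_lft _ (Nat.lt_succ_self (e / 2)), Ty_sb]
  rw [← hq (bm L + (j1 + 1) + (j2 + 1)) _ (sup_sb_le fun t _ => ?_)]
  unfold wz
  by_cases ht : t < L.length
  · rw [if_pos ht, List.getD_eq_getElem?_getD, List.getElem?_eq_getElem ht]
    have := mv_le_bm (List.getElem_mem ht)
    simp only [Option.getD_some]
    omega
  · rw [if_neg ht, mv_bterm, mv_var, mv_var]; omega

theorem dec_Cmp : DecIn (jump B) fun p : ℕ × (ℕ × ℕ) => Cmp B p.1 p.2.1 p.2.2 := by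
  unfold Cmp
  refine DecIn.all_jump (S := fun (p : ℕ × (ℕ × ℕ)) u => sup u ≤ p.2.1 →
    (u ∈ Rw B p.1 ↔ u ∈ Rw B p.2.2)) ?_
  refine DecIn.imp (DecIn.le ?_ (by fun_prop)) (DecIn.iff (ci_row (by fun_prop) (by fun_prop))
    (ci_row (by fun_prop) (by fun_prop)))
  exact CompIn.comp_of prim_sup.to_comp (by fun_prop)

theorem dec_SkI : DecIn (jump B) fun p : (List ℕ × (ℕ × ℕ)) × (ℕ × ℕ) =>
    SkI B p.1.1 p.2.1 p.1.2.1 p.1.2.2 p.2.2 := by
  unfold SkI
  refine DecIn.all_jump (S := fun (y : (List ℕ × (ℕ × ℕ)) × (ℕ × ℕ)) (E : ℕ) =>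
      Nat.pair (conL y.1.1) E ∈ Rw B y.2.1 →
    ∀ e ∈ lst E, (sb (wz y.1.1 y.1.2.1 y.1.2.2 (Nat.pair (conL y.1.1) E))
      (lft (e / 2 + 1) (e / 2)) ∈ Rw B y.2.2 ↔ e % 2 = 1)) ?_
  have hc := prim_conL
  have hF : Primrec fun x : ((List ℕ × (ℕ × ℕ)) × (ℕ × ℕ)) × ℕ => Nat.pair (conL x.1.1.1) x.2 := by
    fun_prop
  refine DecIn.imp (ci_row (by fun_prop) (CompIn.of_comp hF.to_comp)) ?_
  refine DecIn.all_mem (S := fun (x : ((List ℕ × (ℕ × ℕ)) × (ℕ × ℕ)) × ℕ) e =>
    (sb (wz x.1.1.1 x.1.1.2.1 x.1.1.2.2 (Nat.pair (conL x.1.1.1) x.2))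
      (lft (e / 2 + 1) (e / 2)) ∈ Rw B x.1.2.2 ↔ e % 2 = 1)) ?_
    (CompIn.of_comp (prim_lst.to_comp.comp (by fun_prop)))
  refine DecIn.iff (ci_row (by fun_prop) ?_) (DecIn.eq ?_ (by fun_prop))
  · have h := prim_sb prim_wz
    have hl : Primrec fun p : ℕ × ℕ => lft p.1 p.2 := prim_lft
    have h2 : Primrec fun y : (((List ℕ × (ℕ × ℕ)) × (ℕ × ℕ)) × ℕ) × ℕ =>
        ((y.1.1.1.1, (y.1.1.1.2.1, (y.1.1.1.2.2, Nat.pair (conL y.1.1.1.1) y.1.2))),
          lft (y.2 / 2 + 1) (y.2 / 2)) := by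
      refine pr_pair (by fun_prop) ?_
      exact hl.comp (g := fun y : (((List ℕ × (ℕ × ℕ)) × (ℕ × ℕ)) × ℕ) × ℕ =>
        (y.2 / 2 + 1, y.2 / 2)) (by fun_prop)
    exact CompIn.of_comp (h.comp h2).to_comp
  · have h2 : Primrec fun y : (((List ℕ × (ℕ × ℕ)) × (ℕ × ℕ)) × ℕ) × ℕ => y.2 % 2 := by fun_prop
    exact CompIn.of_comp h2.to_comp

theorem dec_Tr (hqc : CompIn (jump B) q) (hq : ∀ k, IsT 1 k C (Rw B (q k))) :
    DecIn (jump B) fun χ : List Ent => Tr B x0 C χ := by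
  have h1 : DecIn (jump B) fun χ : List Ent => ∀ t < χ.length,
      ((el x0 χ t).1 = (el x0 χ (t + 1)).1.take (el x0 χ t).1.length ∧
      (el x0 χ t).1.length < (el x0 χ (t + 1)).1.length ∧
      (el x0 χ t).2.1 ≤ (el x0 χ (t + 1)).2.1 ∧
      2 * t ∈ (el x0 χ (t + 1)).1 ∧
      ∀ j ∈ (el x0 χ (t + 1)).1, mv j ≤ (el x0 χ (t + 1)).2.1) ∧
      Cmp B (el x0 χ (t + 1)).2.2 (el x0 χ (t + 1)).2.1 (q (el x0 χ (t + 1)).2.1) := by
    refine DecIn.all_lt (S := fun (χ : List Ent) t =>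
      ((el x0 χ t).1 = (el x0 χ (t + 1)).1.take (el x0 χ t).1.length ∧
      (el x0 χ t).1.length < (el x0 χ (t + 1)).1.length ∧
      (el x0 χ t).2.1 ≤ (el x0 χ (t + 1)).2.1 ∧
      2 * t ∈ (el x0 χ (t + 1)).1 ∧
      ∀ j ∈ (el x0 χ (t + 1)).1, mv j ≤ (el x0 χ (t + 1)).2.1) ∧
      Cmp B (el x0 χ (t + 1)).2.2 (el x0 χ (t + 1)).2.1 (q (el x0 χ (t + 1)).2.1)) ?_ (by fun_prop)
    have e1 : Primrec fun x : List Ent × ℕ => el x0 x.1 x.2 := prim_el x0
    have e2 : Primrec fun x : List Ent × ℕ => el x0 x.1 (x.2 + 1) :=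
      (prim_el x0).comp (g := fun x : List Ent × ℕ => (x.1, x.2 + 1)) (by fun_prop)
    have c2 : CompIn (jump B) fun x : List Ent × ℕ => el x0 x.1 (x.2 + 1) :=
      CompIn.of_comp e2.to_comp
    have c1 : CompIn (jump B) fun x : List Ent × ℕ => el x0 x.1 x.2 := CompIn.of_comp e1.to_comp
    refine DecIn.and (DecIn.and (DecIn.eq (by fun_prop) (CompIn.of_comp ?_))
      (DecIn.and (DecIn.lt (by fun_prop) (by fun_prop)) (DecIn.and
        (DecIn.le (by fun_prop) (by fun_prop)) (DecIn.and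
        (DecIn.memList (by fun_prop) (by fun_prop)) ?_)))) ?_
    · refine Primrec.to_comp ?_
      exact pr_take (by fun_prop) (by fun_prop)
    · refine DecIn.all_mem (S := fun (x : List Ent × ℕ) j => mv j ≤ (el x0 x.1 (x.2 + 1)).2.1) ?_
        (by fun_prop)
      refine DecIn.le (CompIn.comp_of prim_mv.to_comp (by fun_prop)) ?_
      exact ci_fst (ci_snd (c2.comp (by fun_prop)))
    · exact DecIn.comp (f := fun x : List Ent × ℕ => ((el x0 x.1 (x.2 + 1)).2.2,
        ((el x0 x.1 (x.2 + 1)).2.1, q (el x0 x.1 (x.2 + 1)).2.1))) dec_Cmp (by fun_prop)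
  refine h1.of_eq fun χ => ?_
  unfold Tr
  simp only [isT_iff hq]

theorem dec_G (hqc : CompIn (jump B) q) (hq : ∀ k, IsT 1 k C (Rw B (q k))) :
    DecIn (jump B) fun p : List Ent × ℕ => G B x0 C p.1 p.2 := by
  have hof : Primrec fun p : List Ent × ℕ => (Denumerable.ofNat Adv p.2 : Adv) :=
    (Primrec.ofNat Adv).comp Primrec.snd
  have hof2 : CompIn (jump B) fun p : List Ent × ℕ => (p.1, (Denumerable.ofNat Adv p.2 : Adv)) :=
    CompIn.of_comp (Primrec.pair Primrec.fst hof).to_comp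
  have he : Primrec fun y : List Ent × Adv => el x0 y.1 y.1.length :=
    (prim_el x0).comp (g := fun y : List Ent × Adv => (y.1, y.1.length)) (by fun_prop)
  have hec : CompIn (jump B) fun y : List Ent × Adv => el x0 y.1 y.1.length :=
    CompIn.of_comp he.to_comp
  have hbm : CompIn (jump B) bm := CompIn.of_comp prim_bm.to_comp
  have key : DecIn (jump B) fun y : List Ent × Adv => Tr B x0 C y.1 ∧
      ((el x0 y.1 y.1.length).2.1 ≤ y.2.2.1 ∧ y.2.1.1 < y.2.2.1 ∧ y.2.1.2 < y.2.2.1 ∧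
        y.1.length < y.2.2.1) ∧ Cmp B y.2.2.2 y.2.2.1 (q y.2.2.1) ∧
      SkI B (el x0 y.1 y.1.length).1 (el x0 y.1 y.1.length).2.2 y.2.1.1 y.2.1.2
        (q (bm (el x0 y.1 y.1.length).1 + (y.2.1.1 + 1) + (y.2.1.2 + 1))) := by
    refine DecIn.and ?_ (DecIn.and (DecIn.and (DecIn.le (by fun_prop) (by fun_prop))
      (DecIn.and (DecIn.lt (by fun_prop) (by fun_prop)) (DecIn.and
        (DecIn.lt (by fun_prop) (by fun_prop)) (DecIn.lt (by fun_prop) (by fun_prop)))))
      (DecIn.and ?_ ?_))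
    · exact DecIn.comp (f := fun y : List Ent × Adv => y.1) (dec_Tr hqc hq) (by fun_prop)
    · exact DecIn.comp (f := fun y : List Ent × Adv => (y.2.2.2, (y.2.2.1, q y.2.2.1))) dec_Cmp
        (by fun_prop)
    · exact DecIn.comp (f := fun y : List Ent × Adv =>
        (((el x0 y.1 y.1.length).1, (y.2.1.1, y.2.1.2)), ((el x0 y.1 y.1.length).2.2,
        q (bm (el x0 y.1 y.1.length).1 + (y.2.1.1 + 1) + (y.2.1.2 + 1))))) dec_SkI (by fun_prop)
  refine (DecIn.comp key hof2).of_eq fun p => ?_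
  unfold G
  rw [sk_iff hq, isT_iff hq]

theorem dec_Cs : DecIn B fun p : List Ent × List Bool => Cs B x0 p.1 p.2 := by
  unfold Cs
  have h1 : DecIn B fun p : List Ent × List Bool => ∀ t < p.1.length + 1,
      Nat.pair (conL (el x0 p.1 t).1) (cod (litv p.2)) ∈ Rw B (el x0 p.1 t).2.2 := by
    refine DecIn.all_lt (S := fun (p : List Ent × List Bool) t =>
      Nat.pair (conL (el x0 p.1 t).1) (cod (litv p.2)) ∈ Rw B (el x0 p.1 t).2.2) ?_ (by fun_prop)
    have e1 : Primrec fun x : (List Ent × List Bool) × ℕ => el x0 x.1.1 x.2 :=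
      (prim_el x0).comp (g := fun x : (List Ent × List Bool) × ℕ => (x.1.1, x.2)) (by fun_prop)
    have hc := prim_conL
    have hl := prim_litv
    have hk := prim_cod
    refine ci_row (CompIn.of_comp (Primrec.to_comp (by fun_prop)))
      (CompIn.of_comp (Primrec.to_comp (by fun_prop)))
  exact h1.of_eq fun p => by simp only [Nat.lt_succ_iff]

end

theorem prf_step0 : S_step0 := by
  classical
  intro M _ _ _ _ _ hM _ hP hFI _ B hB ⟨C, q, hC, hqc, hq⟩
  have h0 : IsT 1 0 C (Rw B (q 0)) := hq 0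
  let N : List Ent → ℕ → List Bool → Option Ent := fun χ j v =>
    some (newL (el (q 0) χ χ.length).1 (Denumerable.ofNat Adv j).1.1 (Denumerable.ofNat Adv j).1.2
      χ.length v, ((Denumerable.ofNat Adv j).2.1, (Denumerable.ofNat Adv j).2.2))
  let X : List Ent → List Bool → Option (List Bool) := fun χ v =>
    if Cs B (q 0) χ (v ++ [false]) then some (v ++ [false]) else
      if Cs B (q 0) χ (v ++ [true]) then some (v ++ [true]) else none
  have hX : ∀ χ v v', X χ v = some v' → Cs B (q 0) χ v' ∧ ∃ b, v' = v ++ [b] := by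
    intro χ v v' h
    simp only [X] at h
    split_ifs at h with h1 h2
    · cases h; exact ⟨h1, _, rfl⟩
    · cases h; exact ⟨h2, _, rfl⟩
  have hNc : CompIn B fun p : List Ent × (ℕ × List Bool) => N p.1 p.2.1 p.2.2 := by
    refine CompIn.of_comp (Primrec.to_comp ?_)
    have h1 : Primrec fun p : List Ent × (ℕ × List Bool) => (Denumerable.ofNat Adv p.2.1 : Adv) :=
      (Primrec.ofNat Adv).comp (by fun_prop)
    have h2 : Primrec fun p : List Ent × (ℕ × List Bool) => el (q 0) p.1 p.1.length :=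
      (prim_el (q 0)).comp (g := fun p : List Ent × (ℕ × List Bool) => (p.1, p.1.length))
        (by fun_prop)
    refine Primrec.option_some.comp (pr_pair ?_ (by fun_prop))
    exact prim_newL.comp (g := fun p : List Ent × (ℕ × List Bool) =>
      (((el (q 0) p.1 p.1.length).1, ((Denumerable.ofNat Adv p.2.1).1.1,
        ((Denumerable.ofNat Adv p.2.1).1.2, p.1.length))), p.2.2)) (by fun_prop)
  have hXc : CompIn B fun p : List Ent × List Bool => X p.1 p.2 := by
    refine CompIn.ite ?_ (by fun_prop) (CompIn.ite ?_ (by fun_prop) (by fun_prop))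
    · exact DecIn.comp (f := fun p : List Ent × List Bool => (p.1, p.2 ++ [false])) dec_Cs
        (by fun_prop)
    · exact DecIn.comp (f := fun p : List Ent × List Bool => (p.1, p.2 ++ [true])) dec_Cs
        (by fun_prop)
  obtain ⟨σ, c, hσc, hσ0, hσ1, hc⟩ := hFI Ent (List Bool) B (G B (q 0) C) (dec_G hqc hq) N hNc X hXc
    (Tr B (q 0) C) (Cs B (q 0)) []
    (fun t ht => absurd ht (Nat.not_lt_zero t))
    (by
      intro t ht
      have : t = 0 := Nat.le_zero.1 ht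
      subst this
      rw [el_zero]
      exact (mem_F h0 (by simp) []).2 ⟨C, fun i hi => absurd hi (Nat.not_lt_zero i), by simp⟩)
    (by
      rintro χ j v e - ⟨hT, ⟨g1, g2, g3, g4⟩, g5, g6⟩ hv hN
      cases hN
      exact cond2 h0 hT g1 g2 g3 g4 g5 g6 hv)
    (by
      intro χ hT
      obtain ⟨j1, j2, h1⟩ := cond3 hP hC h0 hT
      let J := (el (q 0) χ χ.length).2.1 + (j1 + 1) + (j2 + 1) + (χ.length + 1)
      refine ⟨Encodable.encode (((j1, j2), (J, q J)) : Adv), ?_, fun _ _ => rfl⟩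
      unfold G
      rw [Denumerable.ofNat_encode]
      simp only
      exact ⟨hT, ⟨by omega, by omega, by omega, by omega⟩, hq J, h1⟩)
    (by
      intro χ v hT hv
      simp only [X]
      rcases cond4 h0 hT hv with h | h
      · rw [if_pos h]; rfl
      · split_ifs <;> rfl)
    (by
      intro χ0 χ v v' _ hpre _ h
      exact Cs_prefix hpre (hX χ v v' h).1)
  obtain ⟨g, hg, hgD⟩ := final hC h0 σ c hσ0 (fun s => by
    obtain ⟨-, χ, h⟩ := hσ1 s
    exact (hX _ _ _ h).2) hc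
  refine ⟨g, hg, ?_⟩
  have h1 : DecIn B fun p : ℕ => (σ (p + 1))[p]? = some true := DecIn.eq (by fun_prop) (by fun_prop)
  refine h1.of_eq fun p => ?_
  rw [hgD, List.getD_eq_getElem?_getD]
  cases (σ (p + 1))[p]? <;> simp

end Pool.Agent.H623R3.JC.Step0
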