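import Pool.Agent.H623R3.JC.Stmts
import Pool.Agent.Helper227.ENJ.P_dfn_ex
import Pool.Agent.Helper227.ENJ.P_dfn_all
import Pool.Agent.Helper227.ENJ.P_dfn_subst
import Pool.Agent.Helper227.ENJ.P_trm_ops
import Pool.Agent.Helper227.ENJ.P_std_below

/-!
# Lemmas on merged sequences
-/

set_option autoImplicit false

open FirstOrder FirstOrder.Language Pool.Agent.Helper227.EN

namespace Pool.Agent.H623R3.JC

section
variable {M : Type} [CommSemiring M]

theorem mix_even (x : ℕ → M) (ν : ℕ → ℕ) (i : ℕ) : mix x ν (2 * i) = x i := by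
  unfold mix
  rw [if_pos (by omega)]
  congr 1
  omega

theorem mix_odd (x : ℕ → M) (ν : ℕ → ℕ) (i : ℕ) : mix x ν (2 * i + 1) = (ν i : M) := by
  unfold mix
  rw [if_neg (by omega)]
  congr 2
  omega

theorem mix_upd_even (x : ℕ → M) (ν : ℕ → ℕ) (k : ℕ) (y : M) :
    Function.update (mix x ν) (2 * k) y = mix (Function.update x k y) ν := by
  funext i
  by_cases hi : i = 2 * k
  · subst hi
    rw [Function.update_self, mix_even, Function.update_self]
  · rw [Function.update_of_ne hi]
    unfold mix
    by_cases h2 : i % 2 = 0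
    · rw [if_pos h2, if_pos h2, Function.update_of_ne (by omega)]
    · rw [if_neg h2, if_neg h2]

theorem mix_upd_odd (x : ℕ → M) (ν : ℕ → ℕ) (k j : ℕ) :
    Function.update (mix x ν) (2 * k + 1) (j : M) = mix x (Function.update ν k j) := by
  funext i
  by_cases hi : i = 2 * k + 1
  · subst hi
    rw [Function.update_self, mix_odd, Function.update_self]
  · rw [Function.update_of_ne hi]
    unfold mix
    by_cases h2 : i % 2 = 0
    · rw [if_pos h2, if_pos h2]
    · rw [if_neg h2, if_neg h2, Function.update_of_ne (by omega)]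

end

/-- projections: change of variables in a definable predicate -/
theorem mix_dfn_proj {M : Type} [CommSemiring M] [LinearOrder M] [LA.Structure M]
    (hc : Compat M) {R : (ℕ → M) → Prop} (h : Dfn R) (g : ℕ → ℕ) :
    Dfn (fun z : ℕ → M => R (fun i => z (g i))) :=
  dfn_subst R h (fun i z => z (g i)) (fun i => (trm_ops hc).1 (g i))

/-- existential quantifier for one coordinate -/
theorem mix_dfn_ex {M : Type} [LA.Structure M]
    {R : (ℕ → M) → Prop} (h : Dfn R) (k : ℕ) :
    Dfn (fun z : ℕ → M => ∃ y, R (Function.update z k y)) := by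
  refine dfn_ex (fun z y => R (Function.update z k y)) k (fun x y v => ?_) ?_
  · rw [Function.update_idem]
  · simp only [Function.update_eq_self]
    exact h

end Pool.Agent.H623R3.JC
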