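import Pool.Agent.H623R3.JC.Stmts

/-! Coding the oracle into the order of pairs of neighbours. -/

set_option autoImplicit false

open FirstOrder FirstOrder.Language Pool.Agent.Helper227.EN

namespace Pool.Agent.H623R3.JC

open Pool.Agent.Helper578.JD Pool.Agent.Helper578.JD.Oracle Pool.Agent.Helper578.JD.Defs

theorem code_ltD {M : Type} [CommSemiring M] [LinearOrder M] [LA.Structure M] (hM : Compat M)
    (g : ℕ → M) (i j : ℕ) :
    Dg g (Nat.pair 2 (Nat.pair i (Nat.pair j 0))) = true ↔ g i < g j := by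
  rw [← hM.lt]
  simp [Dg]

/-- auxiliary function for the atomic diagram -/
noncomputable def code_F {M : Type} [LA.Structure M] (c : ℕ) (x y z : M) : Bool :=
  open Classical in
  if c = 0 then decide (Structure.funMap (L := LA) AF.add ![x, y] = z)
  else if c = 1 then decide (Structure.funMap (L := LA) AF.mul ![x, y] = z)
  else if c = 2 then decide (Structure.RelMap (L := LA) AR.lt ![x, y])
  else if c = 3 then decide (Structure.funMap (L := LA) AF.zero ![] = x)
  else if c = 4 then decide (Structure.funMap (L := LA) AF.one ![] = x)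
  else false

theorem code_Dg {M : Type} [LA.Structure M] (b : ℕ → M) (p : ℕ) :
    Dg b p = code_F p.unpair.1 (b p.unpair.2.unpair.1) (b p.unpair.2.unpair.2.unpair.1)
      (b p.unpair.2.unpair.2.unpair.2) := rfl

theorem code_ren {M : Type} [LA.Structure M] (g : ℕ → M) (h : ℕ → ℕ) (p : ℕ) :
    Dg g (Nat.pair p.unpair.1 (Nat.pair (h p.unpair.2.unpair.1)
      (Nat.pair (h p.unpair.2.unpair.2.unpair.1) (h p.unpair.2.unpair.2.unpair.2)))) = true ↔
    Dg (fun n => g (h n)) p = true := by
  rw [code_Dg, code_Dg]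
  simp only [Nat.unpair_pair]

open Classical in
/-- the swaps -/
noncomputable def code_pi (S : ℕ → Prop) (n : ℕ) : ℕ :=
  if S (n / 2) then (if n % 2 = 0 then n + 1 else n - 1) else n

theorem code_pi_half (S : ℕ → Prop) (n : ℕ) : code_pi S n / 2 = n / 2 := by
  unfold code_pi
  by_cases h : S (n / 2)
  · rw [if_pos h]
    by_cases h2 : n % 2 = 0
    · rw [if_pos h2]; omega
    · rw [if_neg h2]; omega
  · rw [if_neg h]

theorem code_pi_pos {S : ℕ → Prop} {n : ℕ} (h : S (n / 2)) :
    code_pi S n = if n % 2 = 0 then n + 1 else n - 1 := by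
  unfold code_pi; rw [if_pos h]

theorem code_pi_neg {S : ℕ → Prop} {n : ℕ} (h : ¬ S (n / 2)) : code_pi S n = n := by
  unfold code_pi; rw [if_neg h]

theorem code_pi_inv (S : ℕ → Prop) (n : ℕ) : code_pi S (code_pi S n) = n := by
  have h1 := code_pi_half S n
  by_cases h : S (n / 2)
  · have h2 := code_pi_pos h
    rw [code_pi_pos (n := code_pi S n) (by rw [h1]; exact h)]
    by_cases h3 : n % 2 = 0
    · rw [if_pos h3] at h2
      rw [h2, if_neg (by omega)]; omega
    · rw [if_neg h3] at h2
      rw [h2, if_pos (by omega)]; omega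
  · rw [code_pi_neg h, code_pi_neg h]

theorem code_pi_bij (S : ℕ → Prop) : Function.Bijective (code_pi S) :=
  (Function.Involutive.bijective (code_pi_inv S))

theorem prf_code : S_code := by
  intro M _ _ _ _ _ hM B ⟨g, hg, hB⟩
  have hL : DecIn B fun p : ℕ × ℕ => g p.1 < g p.2 :=
    (DecIn.comp (f := fun p : ℕ × ℕ => Nat.pair 2 (Nat.pair p.1 (Nat.pair p.2 0))) hB
      (by fun_prop)).of_eq fun p => code_ltD hM.compat g p.1 p.2
  obtain ⟨S, hS⟩ : ∃ S : ℕ → Prop, S = fun m => ¬ (g (2 * m) < g (2 * m + 1) ↔ m ∈ B) := ⟨_, rfl⟩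
  have hSd : DecIn B S := by
    rw [hS]
    refine DecIn.not (DecIn.iff ?_ (DecIn.mem Computable.id))
    exact DecIn.comp (f := fun m : ℕ => (2 * m, 2 * m + 1)) hL (by fun_prop)
  have hpi : CompIn B (code_pi S) := by
    have e1 : CompIn B fun n : ℕ => n % 2 :=
      CompIn.of_comp (Primrec.nat_mod.comp Primrec.id (Primrec.const 2)).to_comp
    have e2 : CompIn B fun n : ℕ => n / 2 :=
      CompIn.of_comp (Primrec.nat_div.comp Primrec.id (Primrec.const 2)).to_comp
    have h1 : DecIn B fun n : ℕ => S (n / 2) := DecIn.comp hSd e2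
    have h2 : DecIn B fun n : ℕ => n % 2 = 0 := DecIn.eq (β := ℕ) (g := fun _ => 0) e1 (ci_const 0)
    refine CompIn.of_eq (CompIn.ite h1 (CompIn.ite h2 (f := fun n : ℕ => n + 1)
      (g := fun n : ℕ => n - 1) (by fun_prop) (by fun_prop)) ci_id) fun n => ?_
    unfold code_pi
    by_cases h : S (n / 2)
    · rw [if_pos h, if_pos h]
      by_cases h' : n % 2 = 0
      · rw [if_pos h', if_pos h']
      · rw [if_neg h', if_neg h']
    · rw [if_neg h, if_neg h]
  have hcode : ∀ m, g (code_pi S (2 * m)) < g (code_pi S (2 * m + 1)) ↔ m ∈ B := by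
    intro m
    have e1 : 2 * m / 2 = m := by omega
    have e2 : (2 * m + 1) / 2 = m := by omega
    by_cases h : S m
    · have h1 : code_pi S (2 * m) = 2 * m + 1 := by
        unfold code_pi; rw [e1, if_pos h, if_pos (by omega)]
      have h2 : code_pi S (2 * m + 1) = 2 * m := by
        unfold code_pi; rw [e2, if_pos h, if_neg (by omega)]; omega
      rw [h1, h2]
      rw [hS] at h
      have hne : g (2 * m) ≠ g (2 * m + 1) := fun he => by have := hg.1 he; omega
      have h3 : g (2 * m + 1) < g (2 * m) ↔ ¬ g (2 * m) < g (2 * m + 1) := by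
        constructor
        · exact fun h4 h5 => lt_asymm h4 h5
        · intro h4
          exact lt_of_le_of_ne (not_lt.1 h4) hne.symm
      rw [h3]
      tauto
    · have h1 : code_pi S (2 * m) = 2 * m := by
        unfold code_pi; rw [e1, if_neg h]
      have h2 : code_pi S (2 * m + 1) = 2 * m + 1 := by
        unfold code_pi; rw [e2, if_neg h]
      rw [h1, h2]
      rw [hS] at h
      exact not_not.1 h
  refine ⟨fun n => g (code_pi S n), hg.comp (code_pi_bij S), ?_, ?_⟩
  · have h1 : CompIn B fun p : ℕ => code_pi S p.unpair.2.unpair.1 := hpi.comp (by fun_prop)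
    have h2 : CompIn B fun p : ℕ => code_pi S p.unpair.2.unpair.2.unpair.1 := hpi.comp (by fun_prop)
    have h3 : CompIn B fun p : ℕ => code_pi S p.unpair.2.unpair.2.unpair.2 := hpi.comp (by fun_prop)
    refine (DecIn.comp (f := fun p : ℕ => Nat.pair p.unpair.1 (Nat.pair
      (code_pi S p.unpair.2.unpair.1) (Nat.pair (code_pi S p.unpair.2.unpair.2.unpair.1)
      (code_pi S p.unpair.2.unpair.2.unpair.2)))) hB ?_).of_eq fun p => code_ren g (code_pi S) p
    exact ci_natpair (by fun_prop) (ci_natpair h1 (ci_natpair h2 h3))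
  · rw [Red_iff]
    have h1 : DecIn {p | Dg (fun n => g (code_pi S n)) p = true} fun m : ℕ => m ∈ B := by
      refine (DecIn.comp (f := fun m : ℕ => Nat.pair 2 (Nat.pair (2 * m) (Nat.pair (2 * m + 1) 0)))
        (DecIn.mem Computable.id) (by fun_prop)).of_eq fun m => ?_
      have h2 := code_ltD hM.compat (fun n => g (code_pi S n)) (2 * m) (2 * m + 1)
      simp only [id, Set.mem_ofPred_eq]
      rw [h2]
      exact hcode m
    exact h1

end Pool.Agent.H623R3.JC
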