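import Pool.Agent.H623R3.JC.Stmts

/-!
Task DDLITS: primitive recursive functions of initial segments of coded sets are definable.
-/

set_option autoImplicit false

open FirstOrder FirstOrder.Language Pool.Agent.Helper227.EN

namespace Pool.Agent.H623R3.JC

/-- the literals of the set of the bits of `m` -/
def ddlits_L (m t k : ℕ) : List ℕ :=
  (List.range t).map fun u => if sup u ≤ k then (if m / 2 ^ u % 2 = 1 then 2 * u + 1 else 2 * u) else 1

theorem ddlits_lits (m t k : ℕ) : lits {u | m / 2 ^ u % 2 = 1} t k = ddlits_L m t k := by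
  unfold lits ddlits_L
  refine List.map_congr_left fun u _ => ?_
  simp only [Set.mem_setOf_eq]

theorem ddlits_pow : Primrec fun u : ℕ => 2 ^ u := by
  have h : Primrec (Nat.rec 1 (fun _ r => 2 * r) : ℕ → ℕ) :=
    Primrec.nat_rec₁ 1 (Primrec.nat_mul.comp (Primrec.const 2) Primrec.snd)
  refine h.of_eq fun n => ?_
  induction n with
  | zero => rfl
  | succ n ih => rw [pow_succ, ← ih]; exact Nat.mul_comm _ _

theorem ddlits_primL (hs : Primrec sup) (k : ℕ) :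
    Primrec fun p : ℕ × ℕ => ddlits_L p.1 p.2 k := by
  unfold ddlits_L
  refine Primrec.list_map (Primrec.list_range.comp Primrec.snd) ?_
  have hu : Primrec fun q : (ℕ × ℕ) × ℕ => q.2 := Primrec.snd
  have h2u : Primrec fun q : (ℕ × ℕ) × ℕ => 2 * q.2 := Primrec.nat_mul.comp (Primrec.const 2) hu
  have hd : Primrec fun q : (ℕ × ℕ) × ℕ => q.1.1 / 2 ^ q.2 % 2 :=
    Primrec.nat_mod.comp (Primrec.nat_div.comp (Primrec.fst.comp Primrec.fst) (ddlits_pow.comp hu))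
      (Primrec.const 2)
  refine Primrec.ite (PrimrecRel.comp Primrec.nat_le (hs.comp hu) (Primrec.const k)) ?_
    (Primrec.const 1)
  exact Primrec.ite (PrimrecRel.comp Primrec.eq hd (Primrec.const 1)) (Primrec.succ.comp h2u) h2u

theorem ddlits_exists (S : Set ℕ) (t : ℕ) :
    ∃ m < 2 ^ t, ∀ u < t, (m / 2 ^ u % 2 = 1 ↔ u ∈ S) := by
  classical
  refine ⟨Nat.ofBits fun i : Fin t => decide ((i : ℕ) ∈ S), Nat.ofBits_lt_two_pow _, fun u hu => ?_⟩
  have h := Nat.testBit_ofBits_lt (fun i : Fin t => decide ((i : ℕ) ∈ S)) u hu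
  rw [Nat.testBit_eq_decide_div_mod_eq] at h
  simpa using h

theorem prf_ddlits : S_prim → S_ddlits := by
  rintro ⟨-, hcod, -, hsup, -, -⟩
  intro M _ _ _ _ _ hM C1 C2 k s g hg
  -- the bits of `ν i` for `i = 1, 2`
  have hbit : ∀ i j : ℕ, DD (M := M) fun _ ν => ν i / 2 ^ ν j % 2 = 1 := by
    intro i j
    have hP : ∃ b : ℕ → Bool, Primrec b ∧
        ∀ n : ℕ, (n.unpair.1 / 2 ^ n.unpair.2 % 2 = 1) ↔ b n = true := by
      refine ⟨fun n => decide (n.unpair.1 / 2 ^ n.unpair.2 % 2 = 1), ?_, fun n => by simp⟩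
      have : PrimrecPred fun n : ℕ => n.unpair.1 / 2 ^ n.unpair.2 % 2 = 1 :=
        PrimrecRel.comp Primrec.eq (Primrec.nat_mod.comp (Primrec.nat_div.comp
          (Primrec.fst.comp Primrec.unpair) (ddlits_pow.comp (Primrec.snd.comp Primrec.unpair)))
          (Primrec.const 2)) (Primrec.const 1)
      exact this.decide
    have h1 := C2.rel (fun n => n.unpair.1 / 2 ^ n.unpair.2 % 2 = 1) hP
      (fun ν => Nat.pair (ν i) (ν j))
      (C2.prim2 Nat.pair Primrec₂.natPair _ _ (C2.var i) (C2.var j))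
    simpa only [Nat.unpair_pair] using h1
  have hdvd : ∀ i j : ℕ, DD (M := M) fun x ν => ((Nat.nth Nat.Prime (ν j) : ℕ) : M) ∣ x i := by
    intro i j
    exact C1.ren (fun _ => i) (fun _ => j) C2.dvd
  -- `ν i` codes the initial segment of length `ν 0` of the set coded by `x l`
  have hseg : ∀ i l : ℕ, i ≠ 3 → DD (M := M) fun x ν => ∀ u < ν 0,
      (ν i / 2 ^ u % 2 = 1 ↔ u ∈ Xc (x l)) := by
    intro i l hi
    refine C1.allLt (fun x ν u => (ν i / 2 ^ u % 2 = 1 ↔ u ∈ Xc (x l))) 3 0 (by omega) ?_ ?_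
    · intro x ν u v
      simp only [Function.update_of_ne hi]
    · exact C1.iff (hbit i 3) (hdvd l 3)
  -- the value of the function
  let G : ℕ → ℕ := fun n =>
    g (cod (ddlits_L n.unpair.1 n.unpair.2.unpair.2 k))
      (cod (ddlits_L n.unpair.2.unpair.1 n.unpair.2.unpair.2 s))
  have hG : Primrec G := by
    have a1 : Primrec fun n : ℕ => n.unpair.1 := Primrec.fst.comp Primrec.unpair
    have a2 : Primrec fun n : ℕ => n.unpair.2.unpair.1 :=
      Primrec.fst.comp (Primrec.unpair.comp (Primrec.snd.comp Primrec.unpair))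
    have a3 : Primrec fun n : ℕ => n.unpair.2.unpair.2 :=
      Primrec.snd.comp (Primrec.unpair.comp (Primrec.snd.comp Primrec.unpair))
    exact hg.comp (hcod.comp ((ddlits_primL hsup k).comp (a1.pair a3)))
      (hcod.comp ((ddlits_primL hsup s).comp (a2.pair a3)))
  have hval : DD (M := M) fun x ν =>
      g (cod (ddlits_L (ν 1) (ν 0) k)) (cod (ddlits_L (ν 2) (ν 0) s)) ∈ Xc (x 3) := by
    have h1 := C2.subst (fun x _ i => i ∈ Xc (x 3)) 3 (fun _ _ _ _ => Iff.rfl) (hdvd 3 3)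
      (fun ν => G (Nat.pair (ν 1) (Nat.pair (ν 2) (ν 0))))
      (C2.prim G hG _ (C2.prim2 Nat.pair Primrec₂.natPair _ _ (C2.var 1)
        (C2.prim2 Nat.pair Primrec₂.natPair _ _ (C2.var 2) (C2.var 0))))
    simpa only [G, Nat.unpair_pair] using h1
  have hall : DD (M := M) fun x ν => (∀ u < ν 0, (ν 1 / 2 ^ u % 2 = 1 ↔ u ∈ Xc (x 0))) ∧
      (∀ u < ν 0, (ν 2 / 2 ^ u % 2 = 1 ↔ u ∈ Xc (x 2))) ∧
      g (cod (ddlits_L (ν 1) (ν 0) k)) (cod (ddlits_L (ν 2) (ν 0) s)) ∈ Xc (x 3) :=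
    C1.and (hseg 1 0 (by omega)) (C1.and (hseg 2 2 (by omega)) hval)
  have hex2 : DD (M := M) fun x ν => ∃ m' < ν 4,
      ((∀ u < ν 0, (ν 1 / 2 ^ u % 2 = 1 ↔ u ∈ Xc (x 0))) ∧
      (∀ u < ν 0, (m' / 2 ^ u % 2 = 1 ↔ u ∈ Xc (x 2))) ∧
      g (cod (ddlits_L (ν 1) (ν 0) k)) (cod (ddlits_L m' (ν 0) s)) ∈ Xc (x 3)) := by
    refine C1.exLt (fun x ν m' => ((∀ u < ν 0, (ν 1 / 2 ^ u % 2 = 1 ↔ u ∈ Xc (x 0))) ∧
      (∀ u < ν 0, (m' / 2 ^ u % 2 = 1 ↔ u ∈ Xc (x 2))) ∧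
      g (cod (ddlits_L (ν 1) (ν 0) k)) (cod (ddlits_L m' (ν 0) s)) ∈ Xc (x 3))) 2 4 (by omega) ?_
      hall
    intro x ν i v
    have e0 : Function.update ν 2 v 0 = ν 0 := Function.update_of_ne (by omega) _ _
    have e1 : Function.update ν 2 v 1 = ν 1 := Function.update_of_ne (by omega) _ _
    simp only [e0, e1]
  have hex1 : DD (M := M) fun x ν => ∃ m < ν 4, ∃ m' < ν 4,
      ((∀ u < ν 0, (m / 2 ^ u % 2 = 1 ↔ u ∈ Xc (x 0))) ∧
      (∀ u < ν 0, (m' / 2 ^ u % 2 = 1 ↔ u ∈ Xc (x 2))) ∧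
      g (cod (ddlits_L m (ν 0) k)) (cod (ddlits_L m' (ν 0) s)) ∈ Xc (x 3)) := by
    refine C1.exLt (fun x ν m => ∃ m' < ν 4, ((∀ u < ν 0, (m / 2 ^ u % 2 = 1 ↔ u ∈ Xc (x 0))) ∧
      (∀ u < ν 0, (m' / 2 ^ u % 2 = 1 ↔ u ∈ Xc (x 2))) ∧
      g (cod (ddlits_L m (ν 0) k)) (cod (ddlits_L m' (ν 0) s)) ∈ Xc (x 3))) 1 4 (by omega) ?_
      hex2
    intro x ν i v
    have e0 : Function.update ν 1 v 0 = ν 0 := Function.update_of_ne (by omega) _ _
    have e1 : Function.update ν 1 v 4 = ν 4 := Function.update_of_ne (by omega) _ _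
    simp only [e0, e1]
  have hfin := C2.subst (fun x ν B => ∃ m < B, ∃ m' < B,
      ((∀ u < ν 0, (m / 2 ^ u % 2 = 1 ↔ u ∈ Xc (x 0))) ∧
      (∀ u < ν 0, (m' / 2 ^ u % 2 = 1 ↔ u ∈ Xc (x 2))) ∧
      g (cod (ddlits_L m (ν 0) k)) (cod (ddlits_L m' (ν 0) s)) ∈ Xc (x 3))) 4 (by
        intro x ν i v
        have e0 : Function.update ν 4 v 0 = ν 0 := Function.update_of_ne (by omega) _ _
        simp only [e0]) hex1 (fun ν => 2 ^ ν 0) (C2.prim (fun u => 2 ^ u) ddlits_pow _ (C2.var 0))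
  obtain ⟨R, hR, hR'⟩ := hfin
  refine ⟨R, hR, fun x ν => (hR' x ν).trans ?_⟩
  have key : ∀ m c K : _, (∀ u < ν 0, (m / 2 ^ u % 2 = 1 ↔ u ∈ Xc (x c))) →
      ddlits_L m (ν 0) K = lits (Xc (x c)) (ν 0) K := by
    intro m c K h
    rw [← ddlits_lits]
    exact lits_congr fun u hu => h u hu
  constructor
  · rintro ⟨m, -, m', -, h1, h2, h3⟩
    rwa [key m 0 k h1, key m' 2 s h2] at h3
  · intro h
    obtain ⟨m, hm, hm'⟩ := ddlits_exists (Xc (x 0)) (ν 0)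
    obtain ⟨m', hn, hn'⟩ := ddlits_exists (Xc (x 2)) (ν 0)
    refine ⟨m, hm, m', hn, hm', hn', ?_⟩
    rwa [key m 0 k hm', key m' 2 s hn']

end Pool.Agent.H623R3.JC
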