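import Pool.Agent.H623R3.JC.Stmts

set_option autoImplicit false

namespace Pool.Agent.H623R3.JC

open Pool.Agent.Helper578.JD Pool.Agent.Helper578.JD.Oracle Pool.Agent.Helper578.JD.Defs

theorem decs_pow : Computable (fun n : ℕ => 2 ^ n) := by
  have h : Primrec₂ (fun a b : ℕ => a ^ b) := Primrec₂.unpaired'.1 Nat.Primrec.pow
  exact (h.comp (Primrec.const 2) Primrec.id).to_comp

/-- the set coding all the finite sets of numbers -/
def decsB : Set ℕ := {n | n.unpair.1.testBit n.unpair.2 = true}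

theorem decs_row (τ : ℕ) : Rw decsB τ = {u | τ.testBit u = true} := by
  ext u
  simp [Rw, decsB]

theorem decs_red (B : Set ℕ) : Red decsB B := by
  rw [Red_iff]
  have h1 : DecIn B fun n : ℕ => n.unpair.1 / 2 ^ n.unpair.2 % 2 = 1 := by
    refine DecIn.eq ?_ (ci_const 1)
    refine CompIn.comp₂ Primrec.nat_mod.to_comp (CompIn.comp₂ Primrec.nat_div.to_comp
      (by fun_prop) (CompIn.comp_of decs_pow (by fun_prop))) (ci_const 2)
  have h2 : DecIn B (· ∈ decsB) := by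
    refine h1.of_eq fun n => ?_
    simp only [decsB, Set.mem_ofPred_eq, Nat.testBit_eq_decide_div_mod_eq, decide_eq_true_eq]
  exact h2

theorem decs_bits (X : Set ℕ) (N : ℕ) : ∃ τ < 2 ^ N, ∀ u < N, (u ∈ X ↔ τ.testBit u = true) := by
  classical
  induction N with
  | zero => exact ⟨0, by simp, fun u hu => absurd hu (Nat.not_lt_zero u)⟩
  | succ N ih =>
    obtain ⟨τ, h1, h2⟩ := ih
    by_cases hN : N ∈ X
    · refine ⟨2 ^ N + τ, by rw [pow_succ]; omega, fun u hu => ?_⟩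
      rcases Nat.lt_succ_iff_lt_or_eq.1 hu with h | rfl
      · rw [h2 u h, Nat.testBit_two_pow_add_gt h]
      · rw [Nat.testBit_two_pow_add_eq, Nat.testBit_lt_two_pow h1]
        simp [hN]
    · refine ⟨τ, by rw [pow_succ]; omega, fun u hu => ?_⟩
      rcases Nat.lt_succ_iff_lt_or_eq.1 hu with h | rfl
      · exact h2 u h
      · rw [Nat.testBit_lt_two_pow h1]
        simp [hN]

/-- the predicate tested at each stage -/
def decsP (B B' : Set ℕ) (h : ℕ → ℕ → ℕ → ℕ) (π : (ℕ × ℕ × ℕ) × List (ℕ × ℕ)) (x t : ℕ) : Prop :=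
  ∀ l ∈ π.2, h l.1 (cod (lits (Rw B' x) t π.1.1)) (cod (lits (Rw B π.1.2.2) t π.1.2.1)) ∈ Rw B l.2

theorem decs_dec (hc : S_clits) (hp : S_prim) {B B' : Set ℕ} (hB : Red B' B)
    {h : ℕ → ℕ → ℕ → ℕ} (hh : Primrec (fun p : ℕ × (ℕ × ℕ) => h p.1 p.2.1 p.2.2)) :
    DecIn B fun x : ((ℕ × ℕ × ℕ) × List (ℕ × ℕ)) × (ℕ × ℕ) => decsP B B' h x.1 x.2.1 x.2.2 := by
  have hcod : Computable cod := hp.2.1.to_comp
  have hl : CompIn B fun p : ℕ × (ℕ × ℕ) => lits (Rw B p.1) p.2.1 p.2.2 := hc hp B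
  have hl' : CompIn B fun p : ℕ × (ℕ × ℕ) => lits (Rw B' p.1) p.2.1 p.2.2 := (hc hp B').mono hB
  unfold decsP
  refine DecIn.all_mem (S := fun (x : ((ℕ × ℕ × ℕ) × List (ℕ × ℕ)) × (ℕ × ℕ)) (l : ℕ × ℕ) =>
    h l.1 (cod (lits (Rw B' x.2.1) x.2.2 x.1.1.1)) (cod (lits (Rw B x.1.1.2.2) x.2.2 x.1.1.2.1))
      ∈ Rw B l.2) ?_ (by fun_prop)
  refine ci_row (by fun_prop) ?_
  have h1 : CompIn B fun y : (((ℕ × ℕ × ℕ) × List (ℕ × ℕ)) × (ℕ × ℕ)) × (ℕ × ℕ) =>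
      cod (lits (Rw B' y.1.2.1) y.1.2.2 y.1.1.1.1) :=
    CompIn.comp_of hcod (CompIn.comp (g := fun y : (((ℕ × ℕ × ℕ) × List (ℕ × ℕ)) × (ℕ × ℕ)) ×
      (ℕ × ℕ) => (y.1.2.1, (y.1.2.2, y.1.1.1.1))) hl' (by fun_prop))
  have h2 : CompIn B fun y : (((ℕ × ℕ × ℕ) × List (ℕ × ℕ)) × (ℕ × ℕ)) × (ℕ × ℕ) =>
      cod (lits (Rw B y.1.1.1.2.2) y.1.2.2 y.1.1.1.2.1) :=
    CompIn.comp_of hcod (CompIn.comp (g := fun y : (((ℕ × ℕ × ℕ) × List (ℕ × ℕ)) × (ℕ × ℕ)) ×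
      (ℕ × ℕ) => (y.1.1.1.2.2, (y.1.2.2, y.1.1.1.2.1))) hl (by fun_prop))
  exact CompIn.comp_of (g := fun y : (((ℕ × ℕ × ℕ) × List (ℕ × ℕ)) × (ℕ × ℕ)) × (ℕ × ℕ) =>
    (y.2.1, (cod (lits (Rw B' y.1.2.1) y.1.2.2 y.1.1.1.1),
      cod (lits (Rw B y.1.1.1.2.2) y.1.2.2 y.1.1.1.2.1)))) hh.to_comp
    (CompIn.pair (f := fun y : (((ℕ × ℕ × ℕ) × List (ℕ × ℕ)) × (ℕ × ℕ)) × (ℕ × ℕ) => y.2.1)
      (by fun_prop) (h1.pair h2))

theorem prf_decs : S_clits → S_decs := by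
  intro hc M _ H hp B hB h hh
  have hP : DecIn (jump B) fun x : ((ℕ × ℕ × ℕ) × List (ℕ × ℕ)) × ℕ => Cls B h x.1 (Rw B x.2) := by
    refine (DecIn.all_jump (S := fun (x : ((ℕ × ℕ × ℕ) × List (ℕ × ℕ)) × ℕ) t =>
      decsP B B h x.1 x.2 t) ?_).of_eq fun x => Iff.rfl
    exact DecIn.comp (f := fun y : (((ℕ × ℕ × ℕ) × List (ℕ × ℕ)) × ℕ) × ℕ =>
      (y.1.1, (y.1.2, y.2))) (decs_dec hc hp (Red.refl B) hh) (by fun_prop)
  have hE : DecIn (jump B) fun π : (ℕ × ℕ × ℕ) × List (ℕ × ℕ) => ∃ x, Cls B h π (Rw B x) := by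
    have hD : DecIn (jump B) fun π : (ℕ × ℕ × ℕ) × List (ℕ × ℕ) =>
        ∀ N, ∃ τ < 2 ^ N, ∀ t < N + 1, decsP B decsB h π τ t := by
      refine DecIn.all_jump (S := fun (π : (ℕ × ℕ × ℕ) × List (ℕ × ℕ)) N =>
        ∃ τ < 2 ^ N, ∀ t < N + 1, decsP B decsB h π τ t) ?_
      refine DecIn.ex_lt (S := fun (x : ((ℕ × ℕ × ℕ) × List (ℕ × ℕ)) × ℕ) τ =>
        ∀ t < x.2 + 1, decsP B decsB h x.1 τ t) ?_ (CompIn.comp_of decs_pow (by fun_prop))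
      refine DecIn.all_lt (S := fun (y : (((ℕ × ℕ × ℕ) × List (ℕ × ℕ)) × ℕ) × ℕ) t =>
        decsP B decsB h y.1.1 y.2 t) ?_ (by fun_prop)
      exact DecIn.comp (f := fun z : ((((ℕ × ℕ × ℕ) × List (ℕ × ℕ)) × ℕ) × ℕ) × ℕ =>
        (z.1.1.1, (z.1.2, z.2))) (decs_dec hc hp (decs_red B) hh) (by fun_prop)
    refine hD.of_eq fun π => ?_
    constructor
    · intro h1
      obtain ⟨⟨k, s, r⟩, L⟩ := π
      have hpr : ∀ l, Primrec₂ (h (L.getD l (0, 0)).1) := fun l =>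
        hh.comp (Primrec.pair (Primrec.const _) Primrec.id)
      have hfin : ∀ N, ∃ X : Set ℕ, ∀ t ≤ N, ∀ l < L.length,
          h (L.getD l (0, 0)).1 (cod (lits X t k)) (cod (lits (Rw B r) t s)) ∈
            Rw B (L.getD l (0, 0)).2 := by
        intro N
        obtain ⟨τ, hτ, h3⟩ := h1 N
        refine ⟨{u | τ.testBit u = true}, fun t ht l hl => ?_⟩
        have h4 := h3 t (by omega) (L.getD l (0, 0)) (by
          rw [List.getD_eq_getElem _ _ hl]; exact List.getElem_mem hl)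
        rw [decs_row] at h4
        exact h4
      obtain ⟨X, hX, h2⟩ := H k s L.length (fun l => Rw B (L.getD l (0, 0)).2)
        (fun l _ => (hB _).2 ⟨_, rfl⟩) (Rw B r) ((hB _).2 ⟨r, rfl⟩)
        (fun l => h (L.getD l (0, 0)).1) hpr hfin
      obtain ⟨x, rfl⟩ := (hB X).1 hX
      refine ⟨x, fun t l hl => ?_⟩
      obtain ⟨i, hi, rfl⟩ := List.mem_iff_getElem.1 hl
      have h4 := h2 t i hi
      rw [List.getD_eq_getElem _ _ hi] at h4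
      exact h4
    · rintro ⟨x, hx⟩ N
      obtain ⟨τ, h1, h2⟩ := decs_bits (Rw B x) N
      refine ⟨τ, h1, fun t ht l hl => ?_⟩
      have h3 : lits (Rw B x) t π.1.1 = lits {u | τ.testBit u = true} t π.1.1 :=
        lits_congr (fun u hu => h2 u (by omega))
      rw [decs_row, ← h3]
      exact hx t l hl
  obtain ⟨f, hf, h1, h2⟩ := CompIn.findOpt hP hE
  refine ⟨f, hf, h1, fun π hX => ?_⟩
  obtain ⟨X, hX, h3⟩ := hX
  obtain ⟨x, rfl⟩ := (hB X).1 hX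
  exact h2 π ⟨x, h3⟩

end Pool.Agent.H623R3.JC
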