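import Pool.Agent.H623R3.JC.Stmts

/-!
Finite injury.
-/

set_option autoImplicit false

namespace Pool.Agent.H623R3.JC

open Pool.Agent.Helper578.JD Pool.Agent.Helper578.JD.Oracle Pool.Agent.Helper578.JD.Defs
open Pool.Agent.Helper578.JD.RE

namespace FI

section comb

variable {E S : Type}

/-- the chain of a list of pairs -/
abbrev ch (l : List (ℕ × E)) : List E := l.map Prod.snd

/-- one stage of the construction -/
def Stp (b : (List E × ℕ) × ℕ → Bool) (N : List E → ℕ → S → Option E)
    (X : List E → S → Option S) (s : ℕ) (l : List (ℕ × E)) (σ : S) (l' : List (ℕ × E)) (σ' : S) :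
    Prop :=
  ∃ l1 l2 : List (ℕ × E),
    l1 <+: l ∧
    (∀ P q, P ++ [q] <+: l1 → b ((ch P, q.1), s) = true) ∧
    (∀ P, P <+: l → (∀ P' q, P' ++ [q] <+: P → b ((ch P', q.1), s) = true) → P <+: l1) ∧
    (l2 = l1 ∨ ∃ j e, l2 = l1 ++ [(j, e)] ∧ N (ch l1) j σ = some e) ∧
    (∀ j ≤ s, b ((ch l1, j), s) = true → (N (ch l1) j σ).isSome →
      ∃ j' ≤ j, ∃ e, l2 = l1 ++ [(j', e)] ∧ b ((ch l1, j'), s) = true ∧
        N (ch l1) j' σ = some e) ∧
    l' <+: l2 ∧
    ((X [] σ).isSome → X (ch l') σ = some σ') ∧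
    (∀ P, P <+: l2 → (X (ch P) σ).isSome → P <+: l')

variable {b : (List E × ℕ) × ℕ → Bool} {N : List E → ℕ → S → Option E}
    {X : List E → S → Option S} {G : List E → ℕ → Prop} {Tr : List E → Prop}
    {Cs : List E → S → Prop}

/-- all the advice of the list is good -/
def AG (G : List E → ℕ → Prop) (l : List (ℕ × E)) : Prop :=
  ∀ P q, P ++ [q] <+: l → G (ch P) q.1

/-- the invariant -/
def Inv (G : List E → ℕ → Prop) (Tr : List E → Prop) (Cs : List E → S → Prop)
    (l : List (ℕ × E)) (σ : S) : Prop :=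
  ∀ P, P <+: l → AG G P → Tr (ch P) ∧ Cs (ch P) σ

theorem AG.mono {l l' : List (ℕ × E)} (h : AG G l) (h' : l' <+: l) : AG G l' :=
  fun P q hP => h P q (hP.trans h')

theorem AG.append {l : List (ℕ × E)} {q : ℕ × E} (h : AG G l) (hq : G (ch l) q.1) :
    AG G (l ++ [q]) := by
  intro P q' hP
  rcases List.prefix_concat_iff.1 hP with h1 | h1
  · obtain ⟨h2, h3⟩ := List.append_inj' h1 rfl
    simp only [List.cons.injEq, and_true] at h3
    rw [h2, h3]; exact hq
  · exact h P q' h1

theorem inv_step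
    (hN : ∀ χ j σ e, Tr χ → G χ j → Cs χ σ → N χ j σ = some e →
      Tr (χ ++ [e]) ∧ Cs (χ ++ [e]) σ)
    (hX : ∀ χ σ, Tr χ → Cs χ σ → (X χ σ).isSome)
    (hP : ∀ χ0 χ σ σ', Tr χ0 → χ0 <+: χ → Cs χ0 σ → X χ σ = some σ' → Cs χ0 σ')
    {s : ℕ} {l l' : List (ℕ × E)} {σ σ' : S} (h : Stp b N X s l σ l' σ')
    (hI : Inv G Tr Cs l σ) : Inv G Tr Cs l' σ' ∧ X (ch l') σ = some σ' := by
  obtain ⟨l1, l2, h1, -, -, h4, -, h6, h7, -⟩ := h
  have h0 := hI [] (List.nil_prefix) (fun P q hP => by
    exact absurd (List.prefix_nil.1 hP) (by simp))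
  have hXs : X (ch l') σ = some σ' := h7 (hX _ _ h0.1 h0.2)
  refine ⟨?_, hXs⟩
  have hI1 : Inv G Tr Cs l1 σ := fun P hP hA => hI P (hP.trans h1) hA
  have hI2 : Inv G Tr Cs l2 σ := by
    rcases h4 with h4 | ⟨j, e, h4, h5⟩
    · rw [h4]; exact hI1
    · intro P hP hA
      rw [h4] at hP
      rcases List.prefix_concat_iff.1 hP with h8 | h8
      · have h9 : G (ch l1) j := hA l1 (j, e) (by rw [h8])
        have h10 := hI1 l1 List.prefix_rfl (hA.mono (by rw [h8]; exact List.prefix_append _ _))
        have h11 := hN _ _ _ _ h10.1 h9 h10.2 h5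
        rw [h8]
        simpa [ch] using h11
      · exact hI1 P h8 hA
  intro P hPl hA
  obtain ⟨h8, h9⟩ := hI2 P (hPl.trans h6) hA
  exact ⟨h8, hP _ _ _ _ h8 (hPl.map _) h9 hXs⟩

theorem comb
    (hb : ∀ χ j, ∃ s0, ∀ s ≥ s0, (b ((χ, j), s) = true ↔ G χ j))
    (h0 : Tr [])
    (hN : ∀ χ j σ e, Tr χ → G χ j → Cs χ σ → N χ j σ = some e →
      Tr (χ ++ [e]) ∧ Cs (χ ++ [e]) σ)
    (hG : ∀ χ, Tr χ → ∃ j, G χ j ∧ ∀ σ, Cs χ σ → (N χ j σ).isSome)
    (hX : ∀ χ σ, Tr χ → Cs χ σ → (X χ σ).isSome)
    (hP : ∀ χ0 χ σ σ', Tr χ0 → χ0 <+: χ → Cs χ0 σ → X χ σ = some σ' → Cs χ0 σ')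
    (L : ℕ → List (ℕ × E)) (σ : ℕ → S) (hL : L 0 = []) (hC0 : Cs [] (σ 0))
    (hS : ∀ s, Stp b N X s (L s) (σ s) (L (s + 1)) (σ (s + 1))) :
    ∃ c : ℕ → E, (∀ s, Cs [] (σ s) ∧ ∃ χ, X χ (σ s) = some (σ (s + 1))) ∧
      ∀ n, Tr ((List.range n).map c) ∧ ∃ s1, ∀ s ≥ s1, Cs ((List.range n).map c) (σ s) := by
  have hI : ∀ s, Inv G Tr Cs (L s) (σ s) := by
    intro s
    induction s with
    | zero =>
      intro P hP' hA
      rw [hL] at hP'
      rw [List.prefix_nil.1 hP']
      exact ⟨h0, hC0⟩
    | succ s ih => exact (inv_step hN hX hP (hS s) ih).1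
  have hAnil : AG G ([] : List (ℕ × E)) := fun P q hP => by
    exact absurd (List.prefix_nil.1 hP) (by simp)
  -- the true lists
  have key : ∀ n, ∃ p : List (ℕ × E), p.length = n ∧ AG G p ∧ ∃ s1, ∀ s ≥ s1, p <+: L s := by
    intro n
    induction n with
    | zero => exact ⟨[], rfl, hAnil, 0, fun s _ => List.nil_prefix⟩
    | succ n ih =>
      obtain ⟨p, hp, hA, s1, hs1⟩ := ih
      have hTr : Tr (ch p) := (hI s1 p (hs1 s1 le_rfl) hA).1
      obtain ⟨js, hj1, hj2⟩ := hG _ hTr
      -- b is correct on p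
      have hbp : ∀ p' : List (ℕ × E), p' <+: p → ∃ s2, ∀ s ≥ s2, ∀ P' q, P' ++ [q] <+: p' →
          b ((ch P', q.1), s) = true := by
        intro p'
        induction p' using List.reverseRecOn with
        | nil => exact fun _ => ⟨0, fun s _ P' q hP => by
            exact absurd (List.prefix_nil.1 hP) (by simp)⟩
        | append_singleton p' q ih2 =>
          intro hp'
          obtain ⟨s2, hs2⟩ := ih2 ((List.prefix_append _ _).trans hp')
          obtain ⟨s3, hs3⟩ := hb (ch p') q.1
          refine ⟨max s2 s3, fun s hs P' q' hP => ?_⟩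
          rcases List.prefix_concat_iff.1 hP with h1 | h1
          · obtain ⟨h2, h3⟩ := List.append_inj' h1 rfl
            simp only [List.cons.injEq, and_true] at h3
            rw [h2, h3]
            exact (hs3 s (le_trans (le_max_right _ _) hs)).2 (hA _ _ hp')
          · exact hs2 s (le_trans (le_max_left _ _) hs) P' q' h1
      obtain ⟨s2, hs2⟩ := hbp p List.prefix_rfl
      have hbj : ∀ k, ∃ s3, ∀ s ≥ s3, ∀ j < k, (b ((ch p, j), s) = true ↔ G (ch p) j) := by
        intro k
        induction k with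
        | zero => exact ⟨0, fun s _ j hj => absurd hj (Nat.not_lt_zero _)⟩
        | succ k ihk =>
          obtain ⟨s3, hs3⟩ := ihk
          obtain ⟨s4, hs4⟩ := hb (ch p) k
          refine ⟨max s3 s4, fun s hs j hj => ?_⟩
          rcases Nat.lt_succ_iff_lt_or_eq.1 hj with h1 | h1
          · exact hs3 s (le_trans (le_max_left _ _) hs) j h1
          · rw [h1]; exact hs4 s (le_trans (le_max_right _ _) hs)
      obtain ⟨s3, hs3⟩ := hbj (js + 1)
      obtain ⟨st, hst⟩ : ∃ st, st = max (max s1 s2) (max s3 js) := ⟨_, rfl⟩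
      have e1 : s1 ≤ st := by omega
      have e2 : s2 ≤ st := by omega
      have e3 : s3 ≤ st := by omega
      have e4 : js ≤ st := by omega
      -- claim: some extension which is present and good at some stage and true from then on
      have claim : ∃ q : ℕ × E, G (ch p) q.1 ∧ ∃ s5 ≥ st, p ++ [q] <+: L s5 ∧
          ∀ s ≥ s5, b ((ch p, q.1), s) = true := by
        by_cases hcase : ∃ s ≥ st, ∃ l1 l2 : List (ℕ × E), l1 = p ∧
          (∀ j ≤ s, b ((ch l1, j), s) = true → (N (ch l1) j (σ s)).isSome →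
            ∃ j' ≤ j, ∃ e, l2 = l1 ++ [(j', e)] ∧ b ((ch l1, j'), s) = true ∧
              N (ch l1) j' (σ s) = some e) ∧
          (∀ P, P <+: l2 → (X (ch P) (σ s)).isSome → P <+: L (s + 1))
        · obtain ⟨s, hs, l1, l2, rfl, h5, h8⟩ := hcase
          have hCs : Cs (ch l1) (σ s) := (hI s l1 (hs1 s (by omega)) hA).2
          obtain ⟨j', hj', e, h9, h10, h11⟩ := h5 js (by omega)
            ((hs3 s (by omega) js (by omega)).2 hj1) (hj2 _ hCs)
          have hGj : G (ch l1) j' := (hs3 s (by omega) j' (by omega)).1 h10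
          obtain ⟨h12, h13⟩ := hN _ _ _ _ hTr hGj hCs h11
          refine ⟨(j', e), hGj, s + 1, by omega, ?_, fun s' hs' =>
            (hs3 s' (by omega) j' (by omega)).2 hGj⟩
          refine h8 _ (by rw [h9]) ?_
          have := hX _ _ h12 h13
          simpa [ch] using this
        · -- always longer
          have hl : ∀ s ≥ st, ∃ q : ℕ × E, p ++ [q] <+: L s ∧ b ((ch p, q.1), s) = true := by
            intro s hs
            obtain ⟨l1, l2, h1, h2, h3, h4, h5, h6, h7, h8⟩ := hS s
            have hpl : p <+: l1 := h3 p (hs1 s (by omega)) (hs2 s (by omega))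
            have hne : l1 ≠ p := fun hh => hcase ⟨s, hs, l1, l2, hh, h5, h8⟩
            obtain ⟨r, hr⟩ := hpl
            cases r with
            | nil => exact absurd (by simpa using hr.symm) hne
            | cons q r =>
              have h9 : p ++ [q] <+: l1 := ⟨r, by rw [← hr]; simp⟩
              exact ⟨q, h9.trans h1, h2 _ _ h9⟩
          have huniq : ∀ {q q' : ℕ × E} {l : List (ℕ × E)}, p ++ [q] <+: l → p ++ [q'] <+: l →
              q = q' := by
            intro q q' l h1 h2
            have h3 := List.prefix_of_prefix_length_le h1 h2 (by simp)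
            have h4 := h3.eq_of_length (by simp)
            have h5 := (List.append_inj' h4 rfl).2
            simpa using h5
          have hstay : ∀ s ≥ st, ∀ q : ℕ × E, p ++ [q] <+: L s → p ++ [q] <+: L (s + 1) := by
            intro s hs q hq
            obtain ⟨l1, l2, h1, h2, h3, h4, h5, h6, h7, h8⟩ := hS s
            obtain ⟨q', hq', hb'⟩ := hl s hs
            obtain ⟨q2, hq2, hb2⟩ := hl (s + 1) (by omega)
            have h9 : p ++ [q] <+: l1 := by
              refine h3 _ hq ?_
              intro P' q1 hP'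
              rcases List.prefix_concat_iff.1 hP' with h10 | h10
              · obtain ⟨h11, h12⟩ := List.append_inj' h10 rfl
                simp only [List.cons.injEq, and_true] at h12
                rw [h11, h12, huniq hq hq']
                exact hb'
              · exact hs2 s (by omega) P' q1 h10
            have h10 : p ++ [q] <+: l2 := by
              rcases h4 with h4 | ⟨j, e, h4, -⟩
              · rw [h4]; exact h9
              · rw [h4]; exact h9.trans (List.prefix_append _ _)
            have h11 : p ++ [q2] <+: l2 := hq2.trans h6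
            rw [huniq h10 h11]
            exact hq2
          obtain ⟨q, hq, -⟩ := hl st le_rfl
          have hall : ∀ k, p ++ [q] <+: L (st + k) := by
            intro k
            induction k with
            | zero => exact hq
            | succ k ihk => exact hstay (st + k) (by omega) q ihk
          have hball : ∀ s ≥ st, b ((ch p, q.1), s) = true := by
            intro s hs
            obtain ⟨k, rfl⟩ := Nat.exists_eq_add_of_le hs
            obtain ⟨q', h1, h2⟩ := hl (st + k) hs
            rw [huniq (hall k) h1]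
            exact h2
          obtain ⟨s6, hs6⟩ := hb (ch p) q.1
          have hGq : G (ch p) q.1 :=
            (hs6 (max s6 st) (le_max_left _ _)).1 (hball _ (le_max_right _ _))
          exact ⟨q, hGq, st, le_rfl, hq, hball⟩
      obtain ⟨q, hGq, s5, hs5, hq5, hb5⟩ := claim
      have hA' : AG G (p ++ [q]) := hA.append hGq
      refine ⟨p ++ [q], by simp [hp], hA', s5, fun s hs => ?_⟩
      obtain ⟨k, rfl⟩ := Nat.exists_eq_add_of_le hs
      clear hs
      induction k with
      | zero => exact hq5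
      | succ k ihk =>
        obtain ⟨l1, l2, h1, h2, h3, h4, h5, h6, h7, h8⟩ := hS (s5 + k)
        have h9 : p ++ [q] <+: l1 := by
          refine h3 _ ihk ?_
          intro P' q1 hP'
          rcases List.prefix_concat_iff.1 hP' with h10 | h10
          · obtain ⟨h11, h12⟩ := List.append_inj' h10 rfl
            simp only [List.cons.injEq, and_true] at h12
            rw [h11, h12]
            exact hb5 _ (by omega)
          · exact hs2 _ (by omega) P' q1 h10
        have h10 : p ++ [q] <+: l2 := by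
          rcases h4 with h4 | ⟨j, e, h4, -⟩
          · rw [h4]; exact h9
          · rw [h4]; exact h9.trans (List.prefix_append _ _)
        refine h8 _ h10 ?_
        obtain ⟨h11, h12⟩ := hI (s5 + k) (p ++ [q]) ihk hA'
        exact hX _ _ h11 h12
  choose p hp1 hp2 hp3 using key
  choose t ht using hp3
  have hne : ∀ n, n < (p (n + 1)).length := fun n => by rw [hp1]; omega
  have hpre : ∀ m n, m ≤ n → p m <+: p n := by
    intro m n hmn
    exact List.prefix_of_prefix_length_le (ht m (max (t m) (t n)) (le_max_left _ _))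
      (ht n (max (t m) (t n)) (le_max_right _ _)) (by rw [hp1, hp1]; exact hmn)
  have hc : ∀ n, (List.range n).map (fun i => ((p (i + 1))[i]'(hne i)).2) = ch (p n) := by
    intro n
    refine List.ext_getElem (by simp [ch, hp1]) fun i h1 h2 => ?_
    have hi : i < n := by simpa using h1
    have h3 : (p (i + 1))[i]'(hne i) = (p n)[i]'(by rw [hp1]; exact hi) :=
      List.IsPrefix.getElem (hpre (i + 1) n (by omega)) (hne i)
    simp [ch, h3]
  refine ⟨fun i => ((p (i + 1))[i]'(hne i)).2, fun s => ⟨(hI s [] List.nil_prefix hAnil).2,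
    ch (L (s + 1)), (inv_step hN hX hP (hS s) (hI s)).2⟩, fun n => ?_⟩
  rw [hc]
  refine ⟨(hI (t n) (p n) (ht n _ le_rfl) (hp2 n)).1, t n, fun s hs => ?_⟩
  exact (hI s (p n) (ht n s hs) (hp2 n)).2

end comb

section compu

variable {E S : Type} [Primcodable E] [Primcodable S] {O : Set ℕ}
variable {α : Type} [Primcodable α]

theorem ci_ch {f : α → List (ℕ × E)} (hf : CompIn O f) : CompIn O fun a => ch (f a) :=
  CompIn.comp_of (f := fun l : List (ℕ × E) => l.map Prod.snd) (by fun_prop) hf

theorem ci_mfst {f : α → List (ℕ × E)} (hf : CompIn O f) : CompIn O fun a => (f a).map Prod.fst :=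
  CompIn.comp_of (f := fun l : List (ℕ × E) => l.map Prod.fst) (by fun_prop) hf

theorem ci_take {f : α → List (ℕ × E)} {g : α → ℕ} (hf : CompIn O f) (hg : CompIn O g) :
    CompIn O fun a => (f a).take (g a) :=
  CompIn.comp₂ (f := fun n (l : List (ℕ × E)) => l.take n) Primrec.list_take.to_comp hg hf

theorem ci_getD0 {f : α → List ℕ} {g : α → ℕ} (hf : CompIn O f) (hg : CompIn O g) :
    CompIn O fun a => (f a).getD (g a) 0 :=
  CompIn.comp₂ (f := fun (l : List ℕ) n => l.getD n 0) (Primrec.list_getD 0).to_comp hf hg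

/-- the optional new entry -/
def opl (p : ℕ × Option E) : List (ℕ × E) :=
  Option.casesOn p.2 [] (fun e => [(p.1, e)])

theorem ci_opl {f : α → ℕ} {g : α → Option E} (hf : CompIn O f) (hg : CompIn O g) :
    CompIn O fun a => opl (f a, g a) := by
  have h1 : Computable (opl (E := E)) := by
    unfold opl
    refine Computable.option_casesOn Computable.snd (Computable.const _) ?_
    exact (show Computable fun x : (ℕ × Option E) × E => [(x.1.1, x.2)] by fun_prop)
  exact CompIn.comp_of (f := opl) h1 (hf.pair hg)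

theorem ci_getD {f : α → Option S} {g : α → S} (hf : CompIn O f) (hg : CompIn O g) :
    CompIn O fun a => (f a).getD (g a) :=
  CompIn.comp₂ (f := fun (o : Option S) s => o.getD s) Primrec.option_getD.to_comp hf hg

theorem dec_isSome {f : α → Option S} (hf : CompIn O f) : DecIn O fun a => (f a).isSome = true :=
  DecIn.eq (f := fun a => (f a).isSome) (g := fun _ => true)
    (CompIn.comp_of (f := fun o : Option S => o.isSome) (by fun_prop) hf) (by fun_prop)

/-- the stage function -/
theorem exists_stage {b : (List E × ℕ) × ℕ → Bool} (hb : CompIn O b)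
    {N : List E → ℕ → S → Option E}
    (hN : CompIn O fun p : List E × (ℕ × S) => N p.1 p.2.1 p.2.2)
    {X : List E → S → Option S} (hX : CompIn O fun p : List E × S => X p.1 p.2) :
    ∃ F : ℕ × (List (ℕ × E) × S) → List (ℕ × E) × S, CompIn O F ∧
      ∀ s l σ, Stp b N X s l σ (F (s, (l, σ))).1 (F (s, (l, σ))).2 := by
  -- step 1
  obtain ⟨m1, hm1, h1⟩ := CompIn.find (A := O)
    (P := fun (a : ℕ × (List (ℕ × E) × S)) m => a.2.1.length ≤ m ∨
      ¬ b ((ch (a.2.1.take m), (a.2.1.map Prod.fst).getD m 0), a.1) = true)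
    (by
      refine DecIn.or (DecIn.le (by fun_prop) (by fun_prop)) (DecIn.not ?_)
      refine DecIn.eq (g := fun _ => true) (hb.comp ?_) (by fun_prop)
      refine CompIn.pair (CompIn.pair (ci_ch (ci_take (by fun_prop) (by fun_prop)))
        (ci_getD0 (ci_mfst (by fun_prop)) (by fun_prop))) (by fun_prop))
    (fun a => ⟨a.2.1.length, Or.inl le_rfl⟩)
  obtain ⟨l1, hl1⟩ : ∃ l1 : ℕ × (List (ℕ × E) × S) → List (ℕ × E),
    l1 = fun a => a.2.1.take (m1 a) := ⟨_, rfl⟩
  have cl1 : CompIn O l1 := by rw [hl1]; exact ci_take (by fun_prop) hm1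
  -- step 2
  obtain ⟨j2, hj2, h2⟩ := CompIn.find (A := O)
    (P := fun (a : ℕ × (List (ℕ × E) × S)) j => a.1 < j ∨
      (b ((ch (l1 a), j), a.1) = true ∧ (N (ch (l1 a)) j a.2.2).isSome = true))
    (by
      refine DecIn.or (DecIn.lt (by fun_prop) (by fun_prop)) (DecIn.and ?_ ?_)
      · refine DecIn.eq (g := fun _ => true) (hb.comp ?_) (by fun_prop)
        exact CompIn.pair (CompIn.pair (ci_ch (cl1.comp (by fun_prop))) (by fun_prop))
          (by fun_prop)
      · refine dec_isSome ?_
        exact hN.comp (g := fun x : (ℕ × (List (ℕ × E) × S)) × ℕ =>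
          (ch (l1 x.1), (x.2, x.1.2.2))) (CompIn.pair (ci_ch (cl1.comp (by fun_prop)))
            (by fun_prop)))
    (fun a => ⟨a.1 + 1, Or.inl (Nat.lt_succ_self _)⟩)
  obtain ⟨l2, hl2⟩ : ∃ l2 : ℕ × (List (ℕ × E) × S) → List (ℕ × E),
    l2 = fun a => l1 a ++ opl (j2 a, N (ch (l1 a)) (j2 a) a.2.2) := ⟨_, rfl⟩
  have cl2 : CompIn O l2 := by
    rw [hl2]
    refine ci_append cl1 (ci_opl hj2 ?_)
    exact hN.comp (g := fun a : ℕ × (List (ℕ × E) × S) => (ch (l1 a), (j2 a, a.2.2)))
      (CompIn.pair (ci_ch cl1) (CompIn.pair hj2 (by fun_prop)))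
  -- step 3
  obtain ⟨k3, hk3, h3⟩ := CompIn.find (A := O)
    (P := fun (a : ℕ × (List (ℕ × E) × S)) k => (l2 a).length ≤ k ∨
      (X (ch ((l2 a).take ((l2 a).length - k))) a.2.2).isSome = true)
    (by
      have c2 : CompIn O fun x : (ℕ × (List (ℕ × E) × S)) × ℕ => l2 x.1 :=
        cl2.comp (by fun_prop)
      refine DecIn.or (DecIn.le (by fun_prop) (by fun_prop)) (dec_isSome ?_)
      exact hX.comp (g := fun x : (ℕ × (List (ℕ × E) × S)) × ℕ =>
          (ch ((l2 x.1).take ((l2 x.1).length - x.2)), x.1.2.2))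
        (CompIn.pair (ci_ch (ci_take c2 (by fun_prop))) (by fun_prop)))
    (fun a => ⟨(l2 a).length, Or.inl le_rfl⟩)
  obtain ⟨l3, hl3⟩ : ∃ l3 : ℕ × (List (ℕ × E) × S) → List (ℕ × E),
    l3 = fun a => (l2 a).take ((l2 a).length - k3 a) := ⟨_, rfl⟩
  have cl3 : CompIn O l3 := by
    rw [hl3]; exact ci_take cl2 (by fun_prop)
  refine ⟨fun a => (l3 a, (X (ch (l3 a)) a.2.2).getD a.2.2), CompIn.pair cl3 (ci_getD
    (hX.comp (g := fun a : ℕ × (List (ℕ × E) × S) => (ch (l3 a), a.2.2))
      (CompIn.pair (ci_ch cl3) (by fun_prop))) (by fun_prop)), ?_⟩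
  intro s l σ
  obtain ⟨a, ha⟩ : ∃ a : ℕ × (List (ℕ × E) × S), a = (s, (l, σ)) := ⟨_, rfl⟩
  have ea1 : a.1 = s := by rw [ha]
  have ea2 : a.2.1 = l := by rw [ha]
  have ea3 : a.2.2 = σ := by rw [ha]
  rw [← ha]
  have h1 := h1 a
  have h2 := h2 a
  have h3 := h3 a
  rw [ea1, ea2] at h1
  rw [ea1, ea3] at h2
  rw [ea3] at h3
  simp only [ea3]
  have el1 : l1 a = l.take (m1 a) := by rw [hl1, ← ea2]
  have el2 : l2 a = l1 a ++ opl (j2 a, N (ch (l1 a)) (j2 a) σ) := by rw [hl2, ← ea3]
  have el3 : l3 a = (l2 a).take ((l2 a).length - k3 a) := by rw [hl3]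
  have hget : ∀ (P : List (ℕ × E)) (q : ℕ × E), P ++ [q] <+: l →
      l.take P.length = P ∧ (l.map Prod.fst).getD P.length 0 = q.1 := by
    rintro P q ⟨r, rfl⟩
    simp
  refine ⟨l1 a, l2 a, ?_, ?_, ?_, ?_, ?_, ?_, ?_, ?_⟩
  · rw [el1]; exact List.take_prefix _ _
  · intro P q hP
    have hPl : P ++ [q] <+: l := by rw [el1] at hP; exact hP.trans (List.take_prefix _ _)
    have hlen : P.length < m1 a := by
      have := hP.length_le
      rw [el1] at this
      simp at this
      omega
    have h4 := h1.2 _ hlen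
    obtain ⟨h5, h6⟩ := hget P q hPl
    rw [h5, h6] at h4
    exact not_not.1 (fun h8 => h4 (Or.inr h8))
  · intro P hP hPb
    by_contra hcon
    have hlt : m1 a < P.length := by
      by_contra h4
      apply hcon
      rw [el1]
      exact List.prefix_of_prefix_length_le hP (List.take_prefix _ _) (by
        have := hP.length_le
        simp; omega)
    have hlen := hP.length_le
    obtain ⟨q, hq⟩ : ∃ q, P.take (m1 a) ++ [q] = P.take (m1 a + 1) :=
      ⟨P[m1 a], by rw [List.take_append_getElem]⟩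
    have h4 : P.take (m1 a) ++ [q] <+: P := by rw [hq]; exact List.take_prefix _ _
    obtain ⟨h5, h6⟩ := hget _ _ (h4.trans hP)
    have h7 : (P.take (m1 a)).length = m1 a := by simp; omega
    rw [h7] at h5 h6
    rcases h1.1 with h8 | h8
    · omega
    · rw [h5, h6] at h8
      exact h8 (hPb _ _ h4)
  · cases hNe : N (ch (l1 a)) (j2 a) σ with
    | none => left; rw [el2, hNe]; simp [opl]
    | some e => exact Or.inr ⟨j2 a, e, by rw [el2, hNe]; simp [opl], hNe⟩
  · intro j hj hb1 hN1
    have hle : j2 a ≤ j := by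
      by_contra h4
      exact h2.2 j (by omega) (Or.inr ⟨hb1, hN1⟩)
    rcases h2.1 with h4 | h4
    · omega
    · obtain ⟨e, he⟩ := Option.isSome_iff_exists.1 h4.2
      exact ⟨j2 a, hle, e, by rw [el2, he]; simp [opl], h4.1, he⟩
  · rw [el3]; exact List.take_prefix _ _
  · intro hX0
    rcases h3.1 with h4 | h4
    · have h5 : l3 a = [] := by rw [el3]; simp [h4]
      rw [h5]
      obtain ⟨σ', h6⟩ := Option.isSome_iff_exists.1 hX0
      simp [ch, h6]
    · rw [← el3] at h4
      obtain ⟨σ', h6⟩ := Option.isSome_iff_exists.1 h4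
      simp [h6]
  · intro P hP hXP
    by_contra hcon
    have hPlen := hP.length_le
    have hlt : (l2 a).length - k3 a < P.length := by
      by_contra h4
      apply hcon
      rw [el3]
      exact List.prefix_of_prefix_length_le hP (List.take_prefix _ _) (by
        simp; omega)
    refine h3.2 ((l2 a).length - P.length) (by omega) (Or.inr ?_)
    have h5 : (l2 a).take ((l2 a).length - ((l2 a).length - P.length)) = P := by
      have h6 : (l2 a).length - ((l2 a).length - P.length) = P.length := by omega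
      rw [h6]
      exact (List.prefix_iff_eq_take.1 hP).symm
    rw [h5]; exact hXP

end compu

end FI

theorem prf_fi : S_limit → S_fi := by
  intro hlim E S _ _ O G hGd N hN X hX Tr Cs s0 h0 hC0 hN1 hG1 hX1 hP1
  obtain ⟨b, hb, hb1⟩ := hlim (List E × ℕ) O (fun p => G p.1 p.2) hGd
  obtain ⟨F, hF, hF1⟩ := FI.exists_stage hb hN hX
  have hit : CompIn O fun p : Unit × ℕ => (Nat.rec (([] : List (ℕ × E)), s0)
      (fun n ih => F (n, ih)) p.2 : List (ℕ × E) × S) :=
    CompIn.iterate (f := fun _ : Unit => (([] : List (ℕ × E)), s0))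
      (g := fun x : Unit × (ℕ × (List (ℕ × E) × S)) => F x.2) (by fun_prop)
      (hF.comp (by fun_prop))
  obtain ⟨st, hst⟩ : ∃ st : ℕ → List (ℕ × E) × S, st = fun n =>
    (Nat.rec (([] : List (ℕ × E)), s0) (fun n ih => F (n, ih)) n : List (ℕ × E) × S) := ⟨_, rfl⟩
  have hst0 : st 0 = ([], s0) := by rw [hst]; rfl
  have hst1 : ∀ n, st (n + 1) = F (n, st n) := fun n => by rw [hst]
  have cst : CompIn O st := by
    rw [hst]
    exact hit.comp (g := fun n : ℕ => ((), n)) (by fun_prop)
  obtain ⟨c, hc1, hc2⟩ := FI.comb (b := b) (N := N) (X := X) (G := G) (Tr := Tr) (Cs := Cs)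
    (fun χ j => hb1 (χ, j)) h0 hN1 hG1 hX1 hP1 (fun s => (st s).1) (fun s => (st s).2)
    (by simp [hst0]) (by simpa [hst0] using hC0) (fun s => by
      have := hF1 s (st s).1 (st s).2
      simpa [hst1] using this)
  exact ⟨fun s => (st s).2, c, by fun_prop, by simp [hst0], hc1, hc2⟩

end Pool.Agent.H623R3.JC
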