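import Pool.Agent.H623R3.JC.Stmts

/-! Removing repetitions. -/

set_option autoImplicit false

open FirstOrder FirstOrder.Language Pool.Agent.Helper227.EN

namespace Pool.Agent.H623R3.JC

open Pool.Agent.Helper578.JD Pool.Agent.Helper578.JD.Oracle Pool.Agent.Helper578.JD.Defs

theorem inj_lt {M : Type} [CommSemiring M] [LinearOrder M] [LA.Structure M] (hM : Compat M)
    (g : ℕ → M) (i j : ℕ) :
    Dg g (Nat.pair 2 (Nat.pair i (Nat.pair j 0))) = true ↔ g i < g j := by
  rw [← hM.lt]
  simp [Dg]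

theorem inj_eq {M : Type} [CommSemiring M] [LinearOrder M] [LA.Structure M] (hM : Compat M)
    (g : ℕ → M) {B : Set ℕ} (hB : DecIn B fun p => Dg g p = true) :
    DecIn B fun p : ℕ × ℕ => g p.1 = g p.2 := by
  have h1 : DecIn B fun p : ℕ × ℕ => g p.1 < g p.2 :=
    (DecIn.comp (f := fun p : ℕ × ℕ => Nat.pair 2 (Nat.pair p.1 (Nat.pair p.2 0))) hB
      (by fun_prop)).of_eq fun p => inj_lt hM g p.1 p.2
  have h2 : DecIn B fun p : ℕ × ℕ => g p.2 < g p.1 :=
    (DecIn.comp (f := fun p : ℕ × ℕ => Nat.pair 2 (Nat.pair p.2 (Nat.pair p.1 0))) hB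
      (by fun_prop)).of_eq fun p => inj_lt hM g p.2 p.1
  refine (h1.not.and h2.not).of_eq fun p => ?_
  rw [not_lt, not_lt]
  constructor
  · rintro ⟨h3, h4⟩; exact le_antisymm h4 h3
  · intro h; rw [h]; exact ⟨le_rfl, le_rfl⟩

/-- auxiliary function for the atomic diagram -/
noncomputable def inj_F {M : Type} [LA.Structure M] (c : ℕ) (x y z : M) : Bool :=
  open Classical in
  if c = 0 then decide (Structure.funMap (L := LA) AF.add ![x, y] = z)
  else if c = 1 then decide (Structure.funMap (L := LA) AF.mul ![x, y] = z)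
  else if c = 2 then decide (Structure.RelMap (L := LA) AR.lt ![x, y])
  else if c = 3 then decide (Structure.funMap (L := LA) AF.zero ![] = x)
  else if c = 4 then decide (Structure.funMap (L := LA) AF.one ![] = x)
  else false

theorem inj_Dg {M : Type} [LA.Structure M] (b : ℕ → M) (p : ℕ) :
    Dg b p = inj_F p.unpair.1 (b p.unpair.2.unpair.1) (b p.unpair.2.unpair.2.unpair.1)
      (b p.unpair.2.unpair.2.unpair.2) := rfl

theorem inj_ren {M : Type} [LA.Structure M] (g : ℕ → M) (h : ℕ → ℕ) (p : ℕ) :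
    Dg g (Nat.pair p.unpair.1 (Nat.pair (h p.unpair.2.unpair.1)
      (Nat.pair (h p.unpair.2.unpair.2.unpair.1) (h p.unpair.2.unpair.2.unpair.2)))) = true ↔
    Dg (fun n => g (h n)) p = true := by
  rw [inj_Dg, inj_Dg]
  simp only [Nat.unpair_pair]

theorem inj_least {P : ℕ → Prop} (hx : ∃ n, P n) : ∃ n, P n ∧ ∀ m < n, ¬ P m := by
  classical
  exact ⟨Nat.find hx, Nat.find_spec hx, fun m hm => Nat.find_min hx hm⟩

theorem prf_inj : S_inj := by
  intro M _ _ _ _ _ hM B ⟨g, hg, hB⟩
  have hE := inj_eq hM.compat g hB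
  have hinf : Infinite M := Infinite.of_injective (fun n : ℕ => (n : M)) Nat.cast_injective
  let P : ℕ → Prop := fun i => ∀ j < i, ¬ g i = g j
  have hP : DecIn B P := by
    refine DecIn.all_lt (S := fun i j => ¬ g i = g j) hE.not ?_
    fun_prop
  have hex : ∀ x : M, ∃ i, P i ∧ g i = x := by
    intro x
    obtain ⟨i, hi, hmin⟩ := inj_least (P := fun i => g i = x) (hg x)
    exact ⟨i, fun j hj h => hmin j hj (h ▸ hi), hi⟩
  have hunb : ∀ i : ℕ, ∃ n, i < n ∧ P n := by
    intro i
    by_contra hcon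
    push Not at hcon
    have hfin : (Set.univ : Set M).Finite := by
      refine ((Set.finite_Iic i).image g).subset fun x _ => ?_
      obtain ⟨k, hk, hkx⟩ := hex x
      exact ⟨k, not_lt.1 fun h => hcon k h hk, hkx⟩
    exact Set.infinite_univ hfin
  obtain ⟨f, hf, hf1⟩ := CompIn.find (A := B) (P := fun i n => i < n ∧ P n) (by
    refine DecIn.and (DecIn.lt (by fun_prop) (by fun_prop)) ?_
    exact DecIn.comp (f := fun x : ℕ × ℕ => x.2) hP (by fun_prop)) hunb
  let h : ℕ → ℕ := fun n => Nat.rec 0 (fun _ ih => f ih) n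
  have h0 : h 0 = 0 := rfl
  have hs : ∀ n, h (n + 1) = f (h n) := fun n => rfl
  have hc : CompIn B h := by
    have h1 := CompIn.iterate (A := B) (α := Unit) (β := ℕ) (f := fun _ => 0)
      (g := fun p => f p.2.2) (by fun_prop) (hf.comp (by fun_prop))
    exact CompIn.comp (g := fun n : ℕ => ((), n)) h1 (by fun_prop)
  have hPh : ∀ n, P (h n) := by
    intro n
    cases n with
    | zero => intro j hj; rw [h0] at hj; omega
    | succ n => rw [hs]; exact (hf1 (h n)).1.2
  have hmono : StrictMono h := strictMono_nat_of_lt_succ fun n => by rw [hs]; exact (hf1 (h n)).1.1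
  have hrange : ∀ i, P i → ∃ n, h n = i := by
    intro i hi
    have hx : ∃ n, i ≤ h n := ⟨i, hmono.id_le i⟩
    obtain ⟨n, hn, hmin⟩ := inj_least (P := fun n => i ≤ h n) hx
    refine ⟨n, le_antisymm ?_ hn⟩
    cases n with
    | zero => rw [h0]; omega
    | succ m =>
      have h1 := hmin m (by omega)
      rw [hs]
      by_contra h2
      exact (hf1 (h m)).2 i (by omega) ⟨by omega, hi⟩
  refine ⟨fun n => g (h n), ⟨?_, ?_⟩, ?_⟩
  · intro m n hmn
    simp only at hmn
    rcases lt_trichotomy m n with h1 | h1 | h1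
    · exact absurd hmn.symm (hPh n _ (hmono h1))
    · exact h1
    · exact absurd hmn (hPh m _ (hmono h1))
  · intro x
    obtain ⟨i, hi, hix⟩ := hex x
    obtain ⟨n, hn⟩ := hrange i hi
    exact ⟨n, by simp only; rw [hn, hix]⟩
  · refine (DecIn.comp (f := fun p : ℕ => Nat.pair p.unpair.1 (Nat.pair (h p.unpair.2.unpair.1)
      (Nat.pair (h p.unpair.2.unpair.2.unpair.1) (h p.unpair.2.unpair.2.unpair.2)))) hB
      (by fun_prop)).of_eq fun p => inj_ren g h p

end Pool.Agent.H623R3.JC
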