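import Pool.Agent.H623R3.JC.Stmts
import Pool.Agent.Helper227.ENJ.P_std_below

/-!
# OVER: overspill
-/

set_option autoImplicit false

open FirstOrder FirstOrder.Language Pool.Agent.Helper227.EN

namespace Pool.Agent.H623R3.JC

theorem prf_over (hind : S_ind) : S_over := by
  intro M _ _ _ _ _ hM R hR x k h
  by_contra hcon
  push Not at hcon
  have hstd : ∀ y : M, R (Function.update x k y) → ∃ m : ℕ, y = (m : M) := by
    intro y hy
    by_contra hno
    refine hcon y (fun n => ?_) hy
    by_contra hlt
    push Not at hlt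
    obtain ⟨m, _, hm⟩ := std_below hM.compat n y hlt
    exact hno ⟨m, hm⟩
  have hall := hind M hM R hR x k (by simpa using h 0) (fun y hy => by
    obtain ⟨m, rfl⟩ := hstd y hy
    have := h (m + 1)
    rwa [Nat.cast_add, Nat.cast_one] at this)
  obtain ⟨c, hc⟩ := hM.nonstd
  exact hcon c hc (hall c)

end Pool.Agent.H623R3.JC
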