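import Pool.Agent.H623R3.JC.P_TYJUMP

/-!
Step K: indices of the types of level `n + 1` can be found with `n + 1` jumps.
-/

set_option autoImplicit false

open FirstOrder FirstOrder.Language Pool.Agent.Helper227.EN

namespace Pool.Agent.H623R3.JC

open Pool.Agent.Helper578.JD Pool.Agent.Helper578.JD.Oracle Pool.Agent.Helper578.JD.Defs

/-- the names of the entries of the witness of `z`, from the names of the two codes -/
def stepK_wl (nm : ℕ → ℕ) (j1 j2 z : ℕ) : List ℕ :=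
  (List.range (z + 1)).map fun t => nm (bterm (2 * j1) (2 * j2) (Nat.pair z t))

theorem stepK_bterm : Computable fun x : ℕ × (ℕ × ℕ) => bterm x.1 x.2.1 x.2.2 := by
  unfold bterm
  fun_prop

theorem stepK_wl_comp {O : Set ℕ} {nm : ℕ → ℕ} (hnm : CompIn O nm) :
    CompIn O fun x : ℕ × (ℕ × ℕ) => stepK_wl nm x.1 x.2.1 x.2.2 := by
  unfold stepK_wl
  refine CompIn.list_map (α := ℕ × (ℕ × ℕ)) (f := fun y : (ℕ × (ℕ × ℕ)) × ℕ =>
    nm (bterm (2 * y.1.1) (2 * y.1.2.1) (Nat.pair y.1.2.2 y.2))) ?_ (by fun_prop)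
  refine hnm.comp (g := fun y : (ℕ × (ℕ × ℕ)) × ℕ =>
    bterm (2 * y.1.1) (2 * y.1.2.1) (Nat.pair y.1.2.2 y.2)) ?_
  exact CompIn.comp_of (f := fun x : ℕ × (ℕ × ℕ) => bterm x.1 x.2.1 x.2.2) stepK_bterm
    (g := fun y : (ℕ × (ℕ × ℕ)) × ℕ => (2 * y.1.1, (2 * y.1.2.1, Nat.pair y.1.2.2 y.2)))
    (by fun_prop)

theorem prf_stepK : S_stepK := by
  intro M _ _ _ _ _ _ hprim hP C hC A B hE _ heq hnm n hty hB
  obtain ⟨nm, hnm, hn⟩ := hnm
  have hr : Red A (jump^[n] A) := red_self_jump_iter A n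
  set O := jump^[n] A with hO
  have hW : DecIn O fun p : List ℕ × ℕ => TyjW n C nm p.1 p.2 :=
    TyjW_dec hprim hty (heq.mono hr) (hnm.mono hr)
  have hnmO : CompIn O nm := hnm.mono hr
  -- the condition
  let S : ℕ × ℕ → ℕ × List ℕ → Prop := fun x y => sup y.1 ≤ x.1 →
    (y.1 ∈ Rw B x.2.unpair.1 →
      TyjW n C nm (stepK_wl nm x.2.unpair.2.unpair.1 x.2.unpair.2.unpair.2 y.1) y.1) ∧
    (y.1 ∉ Rw B x.2.unpair.1 → ¬ TyjW n C nm y.2 y.1)
  have hS : DecIn O fun x : (ℕ × ℕ) × (ℕ × List ℕ) => S x.1 x.2 := by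
    have hsup : CompIn O fun x : (ℕ × ℕ) × (ℕ × List ℕ) => sup x.2.1 :=
      CompIn.comp_of (f := sup) hprim.2.2.2.1.to_comp (by fun_prop)
    have hrow : DecIn O fun x : (ℕ × ℕ) × (ℕ × List ℕ) => x.2.1 ∈ Rw B x.1.2.unpair.1 :=
      (ci_row (A := B) (f := fun x : (ℕ × ℕ) × (ℕ × List ℕ) => x.1.2.unpair.1)
        (g := fun x => x.2.1) (by fun_prop) (by fun_prop)).mono hB
    refine DecIn.imp (DecIn.le hsup (by fun_prop)) (DecIn.and (DecIn.imp hrow ?_)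
      (DecIn.imp hrow.not ?_))
    · have h1 : CompIn O fun x : (ℕ × ℕ) × (ℕ × List ℕ) =>
          stepK_wl nm x.1.2.unpair.2.unpair.1 x.1.2.unpair.2.unpair.2 x.2.1 :=
        (stepK_wl_comp hnmO).comp (g := fun x : (ℕ × ℕ) × (ℕ × List ℕ) =>
          (x.1.2.unpair.2.unpair.1, (x.1.2.unpair.2.unpair.2, x.2.1))) (by fun_prop)
      exact hW.comp (f := fun x : (ℕ × ℕ) × (ℕ × List ℕ) =>
        (stepK_wl nm x.1.2.unpair.2.unpair.1 x.1.2.unpair.2.unpair.2 x.2.1, x.2.1))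
        (CompIn.pair h1 (by fun_prop))
    · exact (hW.comp (f := fun x : (ℕ × ℕ) × (ℕ × List ℕ) => (x.2.2, x.2.1))
        (by fun_prop)).not
  have hall : DecIn (jump O) fun x : ℕ × ℕ => ∀ y : ℕ × List ℕ, S x y := DecIn.all_jump hS
  -- existence
  have hex : ∀ k : ℕ, ∃ m : ℕ, ∀ y : ℕ × List ℕ, S (k, m) y := by
    intro k
    obtain ⟨X, hX, hXT⟩ := hP.types n k C
    obtain ⟨i, rfl⟩ := (hE X).1 hX
    obtain ⟨a, c, hac⟩ := hP.skol n k C
    obtain ⟨j1, hj1⟩ := hC a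
    obtain ⟨j2, hj2⟩ := hC c
    refine ⟨Nat.pair i (Nat.pair j1 j2), ?_⟩
    rintro ⟨z, w⟩ hz
    simp only [Nat.unpair_pair] at hz ⊢
    refine ⟨fun hzi => ?_, fun hzi hw => hzi ((hXT z hz).2 (TyjW_sound hn hw))⟩
    obtain ⟨h1, h2⟩ := hac z hz ((hXT z hz).1 hzi)
    refine TyjW_of hn h1 h2 _ fun t _ => ?_
    rw [hn, hat_bterm, hat_var, hat_var, hj1, hj2]
  obtain ⟨m, hm, hmS⟩ := CompIn.find (A := jump O) (P := fun k m => ∀ y : ℕ × List ℕ, S (k, m) y)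
    hall hex
  refine ⟨fun k => (m k).unpair.1, ?_, fun k u hu => ?_⟩
  · rw [Function.iterate_succ_apply']
    exact ci_fst (ci_unpair hm)
  · have h1 := (hmS k).1
    constructor
    · intro hmem
      exact TyjW_sound hn ((h1 (u, []) hu).1 hmem)
    · intro hty
      by_contra hmem
      obtain ⟨w, hw⟩ := TyjW_complete hC hn hty
      exact (h1 (u, w) hu).2 hmem hw

end Pool.Agent.H623R3.JC
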