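import Pool.Agent.H623R3.JC.Stmts

/-! The structure with universe `ℕ` given by a bijection. -/

set_option autoImplicit false

open FirstOrder FirstOrder.Language Pool.Agent.Helper227.EN

namespace Pool.Agent.H623R3.JC

open Pool.Agent.Helper578.JD Pool.Agent.Helper578.JD.Oracle Pool.Agent.Helper578.JD.Defs

/-- the transported structure -/
@[reducible] noncomputable def strA {M : Type} [LA.Structure M] (e : ℕ ≃ M) : LA.Structure ℕ where
  funMap := fun f v => e.symm (Structure.funMap f (fun i => e (v i)))
  RelMap := fun r v => Structure.RelMap r (fun i => e (v i))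

theorem str_vec2 {M : Type} (e : ℕ ≃ M) (i j : ℕ) :
    (fun k => e ((![i, j] : Fin 2 → ℕ) k)) = ![e i, e j] := by
  funext k; fin_cases k <;> rfl

theorem str_vec0 {M : Type} (e : ℕ ≃ M) :
    (fun k => e ((![] : Fin 0 → ℕ) k)) = ![] := by
  funext k; exact k.elim0

theorem prf_str : S_str := by
  intro M _ g hg
  obtain ⟨e, he⟩ : ∃ e : ℕ ≃ M, ∀ n, e n = g n := ⟨Equiv.ofBijective g hg, fun n => rfl⟩
  refine ⟨strA e, ⟨@FirstOrder.Language.Equiv.mk LA ℕ M (strA e) _ e ?_ ?_⟩, ?_⟩
  · intro n f x
    show e (e.symm (Structure.funMap f (fun i => e (x i)))) = _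
    rw [e.apply_symm_apply]
    rfl
  · intro n r x
    exact Iff.rfl
  · funext z
    have hb : ∀ b c : Bool, (b = true ↔ c = true) → b = c := by
      intro b c; cases b <;> cases c <;> simp
    apply hb
    have key2 : ∀ (f : LA.Functions 2) (i j l : ℕ),
        @Structure.funMap LA ℕ (strA e) 2 f ![i, j] = l ↔ Structure.funMap f ![g i, g j] = g l := by
      intro f i j l
      show e.symm (Structure.funMap f (fun k => e ((![i, j] : Fin 2 → ℕ) k))) = l ↔ _
      rw [str_vec2, Equiv.symm_apply_eq, he, he, he]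
    have key0 : ∀ (f : LA.Functions 0) (l : ℕ),
        @Structure.funMap LA ℕ (strA e) 0 f ![] = l ↔ Structure.funMap f ![] = g l := by
      intro f l
      show e.symm (Structure.funMap f (fun k => e ((![] : Fin 0 → ℕ) k))) = l ↔ _
      rw [str_vec0, Equiv.symm_apply_eq, he]
    have keyr : ∀ (f : LA.Relations 2) (i j : ℕ),
        @Structure.RelMap LA ℕ (strA e) 2 f ![i, j] ↔ Structure.RelMap f ![g i, g j] := by
      intro f i j
      show Structure.RelMap f (fun k => e ((![i, j] : Fin 2 → ℕ) k)) ↔ _
      rw [str_vec2, he, he]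
    unfold diag Dg
    simp only [id]
    split_ifs <;> simp only [decide_eq_true_eq]
    · exact key2 _ _ _ _
    · exact key2 _ _ _ _
    · exact keyr _ _ _
    · exact key0 _ _
    · exact key0 _ _

end Pool.Agent.H623R3.JC
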