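import Pool.Agent.H623R3.JC.Stmts
import Pool.Agent.Helper227.ENJ.P_repE_zero

/-!
Task TY (helper75): the types are definable.
-/

set_option autoImplicit false

open FirstOrder FirstOrder.Language Pool.Agent.Helper227.EN

namespace Pool.Agent.H623R3.JC

open Pool.Agent.Helper578.JD Pool.Agent.Helper578.JD.Oracle Pool.Agent.Helper578.JD.Defs

theorem ty_primrec_lst : Primrec lst := Primrec.ofNat (List ℕ)

theorem ty_mem_rel : ∃ g : ℕ → Bool, Primrec g ∧
    ∀ n, (n.unpair.1 ∈ lst n.unpair.2.unpair.2) ↔ g n = true := by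
  refine ⟨fun n => decide ((lst n.unpair.2.unpair.2).idxOf n.unpair.1 <
    (lst n.unpair.2.unpair.2).length), ?_, fun n => ?_⟩
  · have h1 : Primrec fun n : ℕ => n.unpair.1 := Primrec.fst.comp Primrec.unpair
    have h2 : Primrec fun n : ℕ => n.unpair.2 := Primrec.snd.comp Primrec.unpair
    have h3 : Primrec fun n : ℕ => lst n.unpair.2.unpair.2 := ty_primrec_lst.comp (h2.comp h2)
    have h4 : Primrec fun n : ℕ => (lst n.unpair.2.unpair.2).idxOf n.unpair.1 :=
      Primrec.list_idxOf.comp h1 h3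
    exact Primrec.nat_lt.decide.comp h4 (Primrec.list_length.comp h3)
  · rw [decide_eq_true_iff, List.idxOf_lt_length_iff]

theorem ty_odd_rel : ∃ g : ℕ → Bool, Primrec g ∧ ∀ n, (n % 2 = 1) ↔ g n = true := by
  refine ⟨fun n => decide (n % 2 = 1), ?_, fun n => (decide_eq_true_iff).symm⟩
  have h1 : Primrec fun n : ℕ => n % 2 := Primrec.nat_mod.comp Primrec.id (Primrec.const 2)
  exact Primrec.eq.decide.comp h1 (Primrec.const 1)

section
variable {M : Type} [CommSemiring M] [LinearOrder M] [IsStrictOrderedRing M]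
  [CanonicallyOrderedAdd M] [LA.Structure M]

theorem ty_zero (h : NPA M) (c2 : Calc2 M) :
    DD (M := M) fun x ν => Ty 0 (bs (x 0) (x 1)) (ν 0) := by
  obtain ⟨S, hS, hS2⟩ := repE_zero h.compat
  obtain ⟨hvar, -, -, -, -, -, -⟩ := trm_ops h.compat
  refine ⟨fun w => S (w 0) (w 2) (w 1), dfn_subst _ hS
    (fun m x => x (match m with | 0 => 0 | 1 => 2 | _ => 1)) (fun m => hvar _), fun x ν => ?_⟩
  have h1 := hS2 (ν 0) (x 0) (x 1) (bs (x 0) (x 1)) (fun i _ => (c2.beta _ _ _ _).2 rfl)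
  have e0 : mix x ν 0 = x 0 := by simp [mix]
  have e1 : mix x ν 1 = (ν 0 : M) := by simp [mix]
  have e2 : mix x ν 2 = x 1 := by simp [mix]
  simp only [e0, e1, e2]
  exact h1

theorem ty_iff (c2 : Calc2 M) (n z : ℕ) (x : ℕ → M) :
    Ty (n + 1) x z ↔ ∃ a c : M, Con z.unpair.1 (bs a c) x ∧
      ∀ e < z, e ∈ lst z.unpair.2 → Lit (Ty n (bs a c)) e := by
  constructor
  · rintro ⟨y, h1, h2⟩
    obtain ⟨a, c, hac⟩ := c2.code (z + 1) y
    refine ⟨a, c, ?_, ?_⟩
    · refine (Con_congr_left fun f hf => ?_).2 h1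
      refine hac _ ?_
      have := mem_lst_lt hf
      have := Nat.unpair_left_le z
      have := Nat.unpair_left_le f
      omega
    · intro e _ he
      refine (Lit_congr ?_).2 (h2 e he)
      refine Ty_congr_le fun i hi => hac i ?_
      have := mem_lst_lt he
      have := Nat.unpair_right_le z
      omega
  · rintro ⟨a, c, h1, h2⟩
    refine ⟨bs a c, h1, fun e he => h2 e ?_ he⟩
    have := mem_lst_lt he
    have := Nat.unpair_right_le z
    omega

end

theorem prf_TY : S_ddty := by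
  intro M _ _ _ _ _ h c1 c2 hcon n
  induction n with
  | zero => exact ty_zero h c2
  | succ n ih =>
    -- the level `n` type of the new sequence at `e / 2`
    have p1 : DD (M := M) fun x ν => Ty n (bs (x 2) (x 3)) (ν 1 / 2) := by
      have h1 : DD (M := M) fun x ν => Ty n (bs (x 2) (x 3)) (ν 0) :=
        c1.ren (fun i => i + 2) (fun i => i) ih
      exact c2.subst (fun x _ i => Ty n (bs (x 2) (x 3)) i) 0 (fun _ _ _ _ => Iff.rfl) h1 _
        (c2.prim (fun m => m / 2) (Primrec.nat_div.comp Primrec.id (Primrec.const 2)) _ (c2.var 1))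
    have p2 : DD (M := M) fun _ ν => ν 1 ∈ lst (ν 0).unpair.2 := by
      have h1 := c2.rel (fun m => m.unpair.1 ∈ lst m.unpair.2.unpair.2) ty_mem_rel _
        (c2.prim2 Nat.pair Primrec₂.natPair _ _ (c2.var 1) (c2.var 0))
      simpa only [Nat.unpair_pair] using h1
    have p3 : DD (M := M) fun x ν => Con (ν 0).unpair.1 (bs (x 2) (x 3)) (bs (x 0) (x 1)) := by
      have h1 : DD (M := M) fun x ν => Con (ν 0) (bs (x 2) (x 3)) (bs (x 0) (x 1)) :=
        c1.ren (fun i => match i with | 0 => 2 | 1 => 3 | 2 => 0 | _ => 1) (fun i => i) hcon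
      exact c2.subst (fun x _ i => Con i (bs (x 2) (x 3)) (bs (x 0) (x 1))) 0
        (fun _ _ _ _ => Iff.rfl) h1 _
        (c2.prim (fun m => m.unpair.1) (Primrec.fst.comp Primrec.unpair) _ (c2.var 0))
    have p4 : DD (M := M) fun _ ν => ν 1 % 2 = 1 :=
      c2.rel (fun m => m % 2 = 1) ty_odd_rel _ (c2.var 1)
    have p5 : DD (M := M) fun x ν =>
        (ν 1 ∈ lst (ν 0).unpair.2 → Lit (Ty n (bs (x 2) (x 3))) (ν 1)) :=
      c1.imp p2 (c1.iff p1 p4)
    have p6 : DD (M := M) fun x ν => ∀ e < ν 0,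
        (e ∈ lst (ν 0).unpair.2 → Lit (Ty n (bs (x 2) (x 3))) e) := by
      refine c1.allLt (fun x ν e => e ∈ lst (ν 0).unpair.2 → Lit (Ty n (bs (x 2) (x 3))) e)
        1 0 (by norm_num) ?_ p5
      intro x ν i v
      simp
    have p7 : DD (M := M) fun x ν => Con (ν 0).unpair.1 (bs (x 2) (x 3)) (bs (x 0) (x 1)) ∧
        ∀ e < ν 0, (e ∈ lst (ν 0).unpair.2 → Lit (Ty n (bs (x 2) (x 3))) e) := c1.and p3 p6
    have p8 : DD (M := M) fun x ν => ∃ c, Con (ν 0).unpair.1 (bs (x 2) c) (bs (x 0) (x 1)) ∧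
        ∀ e < ν 0, (e ∈ lst (ν 0).unpair.2 → Lit (Ty n (bs (x 2) c)) e) := by
      refine c1.exM (fun x ν c => Con (ν 0).unpair.1 (bs (x 2) c) (bs (x 0) (x 1)) ∧
        ∀ e < ν 0, (e ∈ lst (ν 0).unpair.2 → Lit (Ty n (bs (x 2) c)) e)) 3 ?_ p7
      intro x ν y v
      simp
    have p9 : DD (M := M) fun x ν => ∃ a c, Con (ν 0).unpair.1 (bs a c) (bs (x 0) (x 1)) ∧
        ∀ e < ν 0, (e ∈ lst (ν 0).unpair.2 → Lit (Ty n (bs a c)) e) := by
      refine c1.exM (fun x ν a => ∃ c, Con (ν 0).unpair.1 (bs a c) (bs (x 0) (x 1)) ∧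
        ∀ e < ν 0, (e ∈ lst (ν 0).unpair.2 → Lit (Ty n (bs a c)) e)) 2 ?_ p8
      intro x ν y v
      simp
    obtain ⟨R, hR, hR2⟩ := p9
    exact ⟨R, hR, fun x ν => (hR2 x ν).trans (ty_iff c2 n (ν 0) (bs (x 0) (x 1))).symm⟩

end Pool.Agent.H623R3.JC
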