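import Pool.Agent.H623R3.JC.Stmts

/-!
Step 0: from level `1` to a copy.
-/

set_option autoImplicit false

open FirstOrder FirstOrder.Language Pool.Agent.Helper227.EN

namespace Pool.Agent.H623R3.JC.Step0

open Pool.Agent.Helper578.JD Pool.Agent.Helper578.JD.Oracle Pool.Agent.Helper578.JD.Defs
open Pool.Agent.Helper578.JD.RE

/-- entries: terms, bound for the variables, index of the type -/
abbrev Ent := List ℕ × (ℕ × ℕ)

/-- advice: names of the code of witnesses, bound, index -/
abbrev Adv := (ℕ × ℕ) × (ℕ × ℕ)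

/-- the level `t` of a chain -/
def el (x0 : ℕ) (χ : List Ent) (t : ℕ) : Ent :=
  if t = 0 then ([], (0, x0)) else χ.getD (t - 1) ([], (0, 0))

/-- literals of a string -/
def litv (v : List Bool) : List ℕ :=
  (List.range v.length).map fun p => 2 * p + (if v.getD p false = true then 1 else 0)

/-- constraints given by a list of terms -/
def conL (L : List ℕ) : ℕ := con (fun i => L.getD i 0) L.length

/-- the terms for the witness of `z` -/
def wz (L : List ℕ) (j1 j2 z : ℕ) (t : ℕ) : ℕ :=
  if t < L.length then L.getD t 0 else bterm (2 * j1) (2 * j2) (Nat.pair z t)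

/-- the new list of terms -/
def newL (L : List ℕ) (j1 j2 l : ℕ) (v : List Bool) : List ℕ :=
  (List.range (max L.length (v.length + 1))).map
    (wz L j1 j2 (Nat.pair (conL L) (cod (litv v)))) ++ [2 * l]

theorem el_zero (x0 : ℕ) (χ : List Ent) : el x0 χ 0 = ([], (0, x0)) := rfl

theorem el_succ (x0 : ℕ) (χ : List Ent) (t : ℕ) : el x0 χ (t + 1) = χ.getD t ([], (0, 0)) := by
  unfold el
  simp

theorem el_append_left (x0 : ℕ) (χ : List Ent) (e : Ent) {t : ℕ} (h : t ≤ χ.length) :
    el x0 (χ ++ [e]) t = el x0 χ t := by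
  cases t with
  | zero => rfl
  | succ t =>
    rw [el_succ, el_succ, List.getD_eq_getElem?_getD, List.getD_eq_getElem?_getD,
      List.getElem?_append_left h]

theorem el_append_self (x0 : ℕ) (χ : List Ent) (e : Ent) : el x0 (χ ++ [e]) (χ.length + 1) = e := by
  rw [el_succ, List.getD_eq_getElem?_getD]
  simp

theorem mem_litv {v : List Bool} {e : ℕ} : e ∈ litv v ↔
    ∃ p < v.length, e = 2 * p + (if v.getD p false = true then 1 else 0) := by
  unfold litv
  simp only [List.mem_map, List.mem_range, eq_comm]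

section sem
variable {M : Type} [CommSemiring M] [LinearOrder M] [LA.Structure M]
variable (B : Set ℕ) (x0 : ℕ) (C : ℕ → M)

/-- truth of a chain -/
def Tr (χ : List Ent) : Prop :=
  ∀ t < χ.length,
    ((el x0 χ t).1 = (el x0 χ (t + 1)).1.take (el x0 χ t).1.length ∧
      (el x0 χ t).1.length < (el x0 χ (t + 1)).1.length ∧
      (el x0 χ t).2.1 ≤ (el x0 χ (t + 1)).2.1 ∧
      2 * t ∈ (el x0 χ (t + 1)).1 ∧
      ∀ j ∈ (el x0 χ (t + 1)).1, mv j ≤ (el x0 χ (t + 1)).2.1) ∧
    IsT 1 (el x0 χ (t + 1)).2.1 C (Rw B (el x0 χ (t + 1)).2.2)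

/-- good advice: the witnesses are correct -/
def Sk (L : List ℕ) (x j1 j2 : ℕ) : Prop :=
  ∀ E : ℕ, Nat.pair (conL L) E ∈ Rw B x →
    ∀ e ∈ lst E, Lit (Ty 0 (fun t => hat C (wz L j1 j2 (Nat.pair (conL L) E) t))) e

/-- consistency -/
def Cs (χ : List Ent) (v : List Bool) : Prop :=
  ∀ t ≤ χ.length, Nat.pair (conL (el x0 χ t).1) (cod (litv v)) ∈ Rw B (el x0 χ t).2.2

/-- good advice -/
def G (χ : List Ent) (j : ℕ) : Prop :=
  Tr B x0 C χ ∧ ((el x0 χ χ.length).2.1 ≤ (Denumerable.ofNat Adv j).2.1 ∧
    (Denumerable.ofNat Adv j).1.1 < (Denumerable.ofNat Adv j).2.1 ∧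
    (Denumerable.ofNat Adv j).1.2 < (Denumerable.ofNat Adv j).2.1 ∧
    χ.length < (Denumerable.ofNat Adv j).2.1) ∧
  IsT 1 (Denumerable.ofNat Adv j).2.1 C (Rw B (Denumerable.ofNat Adv j).2.2) ∧
  Sk B C (el x0 χ χ.length).1 (el x0 χ χ.length).2.2 (Denumerable.ofNat Adv j).1.1
    (Denumerable.ofNat Adv j).1.2

variable {B x0 C}

theorem lev_true (h0 : IsT 1 0 C (Rw B x0)) {χ : List Ent} (h : Tr B x0 C χ) {t : ℕ}
    (ht : t ≤ χ.length) : IsT 1 (el x0 χ t).2.1 C (Rw B (el x0 χ t).2.2) ∧
      (∀ j ∈ (el x0 χ t).1, mv j ≤ (el x0 χ t).2.1) := by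
  cases t with
  | zero => exact ⟨h0, fun j hj => by simp [el_zero] at hj⟩
  | succ t => exact ⟨(h t ht).2, (h t ht).1.2.2.2.2⟩

theorem lev_prefix {χ : List Ent} (h : Tr B x0 C χ) {t t' : ℕ} (ht : t ≤ t') (ht' : t' ≤ χ.length) :
    (el x0 χ t).1 = (el x0 χ t').1.take (el x0 χ t).1.length ∧
      (el x0 χ t).1.length ≤ (el x0 χ t').1.length := by
  induction t', ht using Nat.le_induction with
  | base => simp
  | succ t' ht ih =>
    obtain ⟨h1, h2⟩ := ih (by omega)
    obtain ⟨⟨h3, h4, -⟩, -⟩ := h t' (by omega)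
    refine ⟨?_, by omega⟩
    conv_lhs => rw [h1, h3]
    rw [List.take_take, min_eq_left h2]

theorem mem_F {L : List ℕ} {J x : ℕ} (h : IsT 1 J C (Rw B x)) (hL : ∀ j ∈ L, mv j ≤ J) (E : List ℕ) :
    Nat.pair (conL L) (cod E) ∈ Rw B x ↔
      ∃ y : ℕ → M, (∀ i < L.length, y i = hat C (L.getD i 0)) ∧ ∀ e ∈ E, Lit (Ty 0 y) e := by
  have h1 : sup (Nat.pair (conL L) (cod E)) ≤ J := sup_con_le fun i hi => by
    rw [List.getD_eq_getElem?_getD, List.getElem?_eq_getElem hi]
    exact hL _ (List.getElem_mem hi)
  rw [h _ h1, Ty_succ_iff]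
  refine exists_congr fun y => and_congr_left fun _ => ?_
  exact Con_con

theorem sup_conL {L : List ℕ} {J : ℕ} (hL : ∀ j ∈ L, mv j ≤ J) (E : ℕ) :
    sup (Nat.pair (conL L) E) ≤ J := sup_con_le fun i hi => by
  rw [List.getD_eq_getElem?_getD, List.getElem?_eq_getElem hi]
  exact hL _ (List.getElem_mem hi)

/-- condition (2) -/
theorem cond2 (h0 : IsT 1 0 C (Rw B x0)) {χ : List Ent} {v : List Bool} {j1 j2 J' x' : ℕ}
    (hT : Tr B x0 C χ) (hJ : (el x0 χ χ.length).2.1 ≤ J') (hj1 : j1 < J') (hj2 : j2 < J')
    (hl : χ.length < J') (hx' : IsT 1 J' C (Rw B x'))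
    (hS : Sk B C (el x0 χ χ.length).1 (el x0 χ χ.length).2.2 j1 j2) (hv : Cs B x0 χ v) :
    Tr B x0 C (χ ++ [(newL (el x0 χ χ.length).1 j1 j2 χ.length v, (J', x'))]) ∧
      Cs B x0 (χ ++ [(newL (el x0 χ χ.length).1 j1 j2 χ.length v, (J', x'))]) v := by
  set L := (el x0 χ χ.length).1 with hLd
  set K := max L.length (v.length + 1) with hK
  set z := Nat.pair (conL L) (cod (litv v)) with hz
  have hLt := lev_true h0 hT (le_refl χ.length)
  have hnl : newL L j1 j2 χ.length v = (List.range K).map (wz L j1 j2 z) ++ [2 * χ.length] := rfl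
  set L' := newL L j1 j2 χ.length v with hL'
  have hlen : L'.length = K + 1 := by rw [hnl]; simp
  have hget : ∀ i < K, L'.getD i 0 = wz L j1 j2 z i := by
    intro i hi
    rw [hnl, List.getD_eq_getElem?_getD, List.getElem?_append_left (by simpa using hi),
      List.getElem?_map, List.getElem?_range hi]
    rfl
  have hgetK : L'.getD K 0 = 2 * χ.length := by
    rw [hnl, List.getD_eq_getElem?_getD, List.getElem?_append_right (by simp)]
    simp
  have hmv : ∀ j ∈ L', mv j ≤ J' := by
    intro j hj
    rw [hnl] at hj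
    rcases List.mem_append.1 hj with hj | hj
    · obtain ⟨t, -, rfl⟩ := List.mem_map.1 hj
      unfold wz
      by_cases ht : t < L.length
      · rw [if_pos ht, List.getD_eq_getElem?_getD, List.getElem?_eq_getElem ht]
        exact (hLt.2 _ (List.getElem_mem ht)).trans hJ
      · rw [if_neg ht, mv_bterm, mv_var, mv_var]
        exact max_le hj1 hj2
    · rw [List.mem_singleton.1 hj, mv_var]
      exact hl
  have htake : L = L'.take L.length := by
    refine List.ext_getElem? fun i => ?_
    by_cases hi : i < L.length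
    · have h1 := hget i (by omega)
      unfold wz at h1
      rw [if_pos hi, List.getD_eq_getElem?_getD, List.getD_eq_getElem?_getD,
        List.getElem?_eq_getElem hi, List.getElem?_eq_getElem (show i < L'.length by omega)] at h1
      rw [List.getElem?_take_of_lt hi, List.getElem?_eq_getElem hi,
        List.getElem?_eq_getElem (show i < L'.length by omega)]
      simpa using h1.symm
    · rw [List.getElem?_eq_none (by omega), List.getElem?_eq_none]
      simp
      omega
  have hclen : (χ ++ [(L', (J', x'))]).length = χ.length + 1 := by simp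
  refine ⟨fun t ht => ?_, fun t ht => ?_⟩
  · rw [hclen] at ht
    rcases Nat.lt_succ_iff_lt_or_eq.1 ht with ht | rfl
    · rw [el_append_left x0 χ _ (by omega), el_append_left x0 χ _ (by omega)]
      exact hT t ht
    · rw [el_append_left x0 χ _ le_rfl, el_append_self]
      refine ⟨⟨htake, ?_, hJ, ?_, hmv⟩, hx'⟩
      · show L.length < L'.length
        have := le_max_left L.length (v.length + 1)
        omega
      · rw [hnl]; simp
  · rw [hclen] at ht
    rcases Nat.lt_or_ge t (χ.length + 1) with ht' | ht'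
    · rw [el_append_left x0 χ _ (by omega)]
      exact hv t (by omega)
    · have : t = χ.length + 1 := by omega
      subst this
      rw [el_append_self]
      simp only
      rw [mem_F hx' hmv]
      have hzx := hv χ.length le_rfl
      have hlit := hS (cod (litv v)) hzx
      rw [lst_cod] at hlit
      refine ⟨fun i => if i < K then hat C (wz L j1 j2 z i) else C χ.length, fun i hi => ?_,
        fun e he => ?_⟩
      · rw [hlen] at hi
        by_cases hiK : i < K
        · simp only [hiK, if_true]; rw [hget i hiK]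
        · have : i = K := by omega
          subst this
          simp only [lt_irrefl, if_false]
          rw [hgetK, hat_var]
      · refine (Lit_congr ?_).1 (hlit e he)
        obtain ⟨p, hp, rfl⟩ := mem_litv.1 he
        have h2 : (2 * p + (if v.getD p false = true then 1 else 0)) / 2 = p := by
          split_ifs <;> omega
        rw [h2]
        refine Ty_congr_le fun i hi => ?_
        have : i < K := by have := le_max_right L.length (v.length + 1); omega
        simp only [this, if_true]
        rfl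

/-- condition (3) -/
theorem cond3 (hP : Pack M) (hC : Function.Surjective C)
    (h0 : IsT 1 0 C (Rw B x0)) {χ : List Ent} (hT : Tr B x0 C χ) :
    ∃ j1 j2, Sk B C (el x0 χ χ.length).1 (el x0 χ χ.length).2.2 j1 j2 := by
  obtain ⟨h1, h2⟩ := lev_true h0 hT (le_refl χ.length)
  set L := (el x0 χ χ.length).1 with hL
  obtain ⟨a, c, hac⟩ := hP.skol 0 (el x0 χ χ.length).2.1 C
  obtain ⟨j1, rfl⟩ := hC a
  obtain ⟨j2, rfl⟩ := hC c
  refine ⟨j1, j2, fun E hz e he => ?_⟩
  set z := Nat.pair (conL L) E with hzd
  have hsup := sup_conL h2 E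
  obtain ⟨h3, h4⟩ := hac z hsup ((h1 z hsup).1 hz)
  have hfun : (fun t => hat C (wz L j1 j2 z t)) = fun t => bt (C j1) (C j2) (Nat.pair z t) := by
    funext t
    unfold wz
    by_cases ht : t < L.length
    · rw [if_pos ht]
      have h5 : z.unpair.1 = conL L := by rw [hzd, Nat.unpair_pair]
      rw [h5] at h3
      exact (Con_con.1 h3 t ht).symm
    · rw [if_neg ht, hat_bterm, hat_var, hat_var]
  rw [hfun]
  refine h4 e ?_
  rw [hzd, Nat.unpair_pair]
  exact he

theorem litv_append (v : List Bool) (b : Bool) :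
    litv (v ++ [b]) = litv v ++ [2 * v.length + (if b = true then 1 else 0)] := by
  unfold litv
  rw [List.length_append, List.length_singleton, List.range_succ, List.map_append]
  congr 1
  · refine List.map_congr_left fun p hp => ?_
    have : (v ++ [b]).getD p false = v.getD p false := by
      rw [List.getD_eq_getElem?_getD, List.getD_eq_getElem?_getD,
        List.getElem?_append_left (List.mem_range.1 hp)]
    rw [this]
  · have : (v ++ [b]).getD v.length false = b := by
      rw [List.getD_eq_getElem?_getD]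
      simp
    simp [this]

/-- condition (4) -/
theorem cond4 (h0 : IsT 1 0 C (Rw B x0)) {χ : List Ent} (hT : Tr B x0 C χ) {v : List Bool}
    (hv : Cs B x0 χ v) : Cs B x0 χ (v ++ [false]) ∨ Cs B x0 χ (v ++ [true]) := by
  obtain ⟨h1, h2⟩ := lev_true h0 hT (le_refl χ.length)
  obtain ⟨y, hy1, hy2⟩ := (mem_F h1 h2 _).1 (hv χ.length le_rfl)
  have key : Cs B x0 χ (v ++ [Dg y v.length]) := by
    intro t ht
    obtain ⟨h3, h4⟩ := lev_true h0 hT ht
    obtain ⟨h5, h6⟩ := lev_prefix hT ht le_rfl
    rw [mem_F h3 h4]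
    refine ⟨y, fun i hi => ?_, fun e he => ?_⟩
    · rw [hy1 i (by omega), h5, List.getD_eq_getElem?_getD, List.getD_eq_getElem?_getD,
        List.getElem?_take_of_lt hi]
    · rw [litv_append] at he
      rcases List.mem_append.1 he with he | he
      · exact hy2 e he
      · rw [List.mem_singleton.1 he]
        cases hD : Dg y v.length
        · have : 2 * v.length + (if false = true then 1 else 0) = 2 * v.length := by simp
          rw [this, Lit_even]
          unfold Ty
          rw [hD]; simp
        · have : 2 * v.length + (if true = true then 1 else 0) = 2 * v.length + 1 := by simp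
          rw [this, Lit_odd]
          exact hD
  cases hD : Dg y v.length
  · rw [hD] at key; exact Or.inl key
  · rw [hD] at key; exact Or.inr key

theorem Cs_prefix {χ0 χ : List Ent} (hpre : χ0 <+: χ) {v : List Bool} (h : Cs B x0 χ v) :
    Cs B x0 χ0 v := by
  intro t ht
  obtain ⟨ρ, rfl⟩ := hpre
  have h1 : el x0 (χ0 ++ ρ) t = el x0 χ0 t := by
    cases t with
    | zero => rfl
    | succ t =>
      rw [el_succ, el_succ, List.getD_eq_getElem?_getD, List.getD_eq_getElem?_getD,
        List.getElem?_append_left ht]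
  have := h t (by rw [List.length_append]; omega)
  rwa [h1] at this

/-- the final enumeration -/
theorem final (hC : Function.Surjective C) (h0 : IsT 1 0 C (Rw B x0))
    (σ : ℕ → List Bool) (c : ℕ → Ent) (hσ0 : σ 0 = [])
    (hσ : ∀ s, ∃ b, σ (s + 1) = σ s ++ [b])
    (hc : ∀ N, Tr B x0 C ((List.range N).map c) ∧
      ∃ s1, ∀ s ≥ s1, Cs B x0 ((List.range N).map c) (σ s)) :
    ∃ g : ℕ → M, Function.Surjective g ∧ ∀ p, Dg g p = true ↔ (σ (p + 1)).getD p false = true := by
  have hlen : ∀ s, (σ s).length = s := by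
    intro s
    induction s with
    | zero => rw [hσ0]; rfl
    | succ s ih => obtain ⟨b, hb⟩ := hσ s; rw [hb, List.length_append, ih]; rfl
  have hcoh : ∀ p s, p < s → (σ s).getD p false = (σ (p + 1)).getD p false := by
    intro p s hs
    induction s, (show p + 1 ≤ s from hs) using Nat.le_induction with
    | base => rfl
    | succ s hs' ih =>
      obtain ⟨b, hb⟩ := hσ s
      rw [← ih (by omega), hb, List.getD_eq_getElem?_getD, List.getD_eq_getElem?_getD,
        List.getElem?_append_left (by rw [hlen]; omega)]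
  have hel : ∀ N t, t < N → el x0 ((List.range N).map c) (t + 1) = c t := by
    intro N t ht
    rw [el_succ, List.getD_eq_getElem?_getD, List.getElem?_map, List.getElem?_range ht]
    rfl
  have hcl : ∀ N, ((List.range N).map c).length = N := fun N => by simp
  have hL : ∀ t, t < (c t).1.length := by
    intro t
    induction t with
    | zero =>
      have := ((hc 1).1 0 (by rw [hcl]; omega)).1.2.1
      rw [hel 1 0 (by omega), el_zero] at this
      exact this
    | succ t ih =>
      have := ((hc (t + 2)).1 (t + 1) (by rw [hcl]; omega)).1.2.1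
      rw [hel (t + 2) t (by omega), hel (t + 2) (t + 1) (by omega)] at this
      omega
  have hpre : ∀ t t', t ≤ t' → (c t).1 = (c t').1.take (c t).1.length ∧
      (c t).1.length ≤ (c t').1.length := by
    intro t t' ht
    have := lev_prefix (hc (t' + 1)).1 (t := t + 1) (t' := t' + 1) (by omega) (by rw [hcl])
    rw [hel (t' + 1) t (by omega), hel (t' + 1) t' (by omega)] at this
    exact this
  have hget : ∀ t t', t ≤ t' → ∀ i < (c t).1.length, (c t).1.getD i 0 = (c t').1.getD i 0 := by
    intro t t' ht i hi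
    have := (hpre t t' ht).1
    rw [List.getD_eq_getElem?_getD, this, List.getElem?_take_of_lt hi,
      List.getD_eq_getElem?_getD]
  let g : ℕ → M := fun i => hat C ((c i).1.getD i 0)
  have hg : ∀ t, ∀ i < (c t).1.length, hat C ((c t).1.getD i 0) = g i := by
    intro t i hi
    show _ = hat C ((c i).1.getD i 0)
    rcases le_total t i with h | h
    · rw [hget t i h i hi]
    · rw [hget i t h i (hL i)]
  refine ⟨g, ?_, ?_⟩
  · intro v
    obtain ⟨t, rfl⟩ := hC v
    have h1 := ((hc (t + 1)).1 t (by rw [hcl]; omega)).1.2.2.2.1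
    rw [hel (t + 1) t (by omega)] at h1
    obtain ⟨i, hi, he⟩ := List.getElem_of_mem h1
    refine ⟨i, ?_⟩
    rw [← hg t i hi, List.getD_eq_getElem?_getD, List.getElem?_eq_getElem hi, Option.getD_some, he,
      hat_var]
  · intro p
    obtain ⟨hT, s1, hs1⟩ := hc (p + 1)
    have h1 := hs1 (max s1 (p + 1)) (le_max_left _ _) (p + 1) (by rw [hcl])
    obtain ⟨h2, h3⟩ := lev_true h0 hT (t := p + 1) (by rw [hcl])
    obtain ⟨y, hy1, hy2⟩ := (mem_F h2 h3 _).1 h1
    rw [hel (p + 1) p (by omega)] at hy1
    have hps : p < max s1 (p + 1) := by omega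
    have h4 := hy2 _ (mem_litv.2 ⟨p, by rw [hlen]; exact hps, rfl⟩)
    rw [hcoh p _ hps] at h4
    have h5 : Dg g p = Dg y p := Dg_congr fun i hi => by
      have := hL p
      rw [hy1 i (by omega)]
      exact (hg p i (by omega)).symm
    rw [h5]
    by_cases hb : (σ (p + 1)).getD p false = true
    · rw [if_pos hb, Lit_odd] at h4
      simp only [hb, iff_true]
      exact h4
    · rw [if_neg hb, Nat.add_zero, Lit_even] at h4
      exact ⟨fun h => absurd h h4, fun h => absurd h hb⟩

end sem

end Pool.Agent.H623R3.JC.Step0
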