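import Pool.Agent.H623R3.JC.Defs
import Pool.Agent.Helper578.JD.Comp

/-!
Toolkit for relative computability.
-/

set_option autoImplicit false

namespace Pool.Agent.H623R3.JC

open Pool.Agent.Helper578.JD Pool.Agent.Helper578.JD.Oracle Pool.Agent.Helper578.JD.Defs
open Pool.Agent.Helper578.JD.RE

attribute [fun_prop] CompIn

section
variable {α β γ δ : Type} [Primcodable α] [Primcodable β] [Primcodable γ] [Primcodable δ]
variable {A B : Set ℕ}

theorem REIn.subst {S : β → Prop} {f : α → β} (h : REIn A S) (hf : CompIn A f) :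
    REIn A fun a => S (f a) := by
  have h1 : REIn A fun a => ∃ b, f a = b ∧ S b := by
    refine REIn.ex (S := fun a b => f a = b ∧ S b) (REIn.and hf ?_)
    exact h.comp Computable.snd
  exact h1.of_eq fun a => by simp

theorem CompIn.of_comp {f : α → β} (hf : Computable f) : CompIn A f :=
  REIn.of_re (RE.eq (hf.comp Computable.fst) Computable.snd)

theorem CompIn.comp {f : β → γ} {g : α → β} (hf : CompIn A f) (hg : CompIn A g) :
    CompIn A fun a => f (g a) := by
  have h1 : REIn A fun p : α × γ => ∃ b, g p.1 = b ∧ f b = p.2 := by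
    refine REIn.ex (S := fun (p : α × γ) b => g p.1 = b ∧ f b = p.2) (REIn.and ?_ ?_)
    · exact REIn.comp hg (f := fun x : (α × γ) × β => (x.1.1, x.2)) (by fun_prop)
    · exact REIn.comp hf (f := fun x : (α × γ) × β => (x.2, x.1.2)) (by fun_prop)
  exact h1.of_eq fun a => by simp

theorem CompIn.pair {f : α → β} {g : α → γ} (hf : CompIn A f) (hg : CompIn A g) :
    CompIn A fun a => (f a, g a) := by
  have h1 : REIn A fun p : α × (β × γ) => f p.1 = p.2.1 ∧ g p.1 = p.2.2 := by
    refine REIn.and ?_ ?_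
    · exact REIn.comp hf (f := fun x : α × (β × γ) => (x.1, x.2.1)) (by fun_prop)
    · exact REIn.comp hg (f := fun x : α × (β × γ) => (x.1, x.2.2)) (by fun_prop)
  exact h1.of_eq fun a => by rw [Prod.ext_iff]

theorem CompIn.comp_of {f : β → γ} {g : α → β} (hf : Computable f) (hg : CompIn A g) :
    CompIn A fun a => f (g a) := (CompIn.of_comp hf).comp hg

theorem CompIn.of_eq {f g : α → β} (hf : CompIn A f) (h : ∀ a, f a = g a) : CompIn A g := by
  have : f = g := funext h
  rw [← this]; exact hf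

@[fun_prop] theorem ci_id : CompIn A (fun x : α => x) := CompIn.of_comp Computable.id
@[fun_prop] theorem ci_const (b : β) : CompIn A (fun _ : α => b) :=
  CompIn.of_comp (Computable.const b)
@[fun_prop] theorem ci_comp {f : β → γ} {g : α → β} (hf : CompIn A f) (hg : CompIn A g) :
    CompIn A (fun x => f (g x)) := hf.comp hg
@[fun_prop] theorem ci_fst {f : α → β × γ} (hf : CompIn A f) : CompIn A (fun x => (f x).1) :=
  CompIn.comp_of Computable.fst hf
@[fun_prop] theorem ci_snd {f : α → β × γ} (hf : CompIn A f) : CompIn A (fun x => (f x).2) :=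
  CompIn.comp_of Computable.snd hf
@[fun_prop] theorem ci_pair {f : α → β} {g : α → γ} (hf : CompIn A f) (hg : CompIn A g) :
    CompIn A (fun x => (f x, g x)) := hf.pair hg

/-- apply a computable function of two arguments -/
theorem CompIn.comp₂ {f : β → γ → δ} {g : α → β} {h : α → γ} (hf : Computable₂ f)
    (hg : CompIn A g) (hh : CompIn A h) : CompIn A fun a => f (g a) (h a) :=
  CompIn.comp_of (f := fun p : β × γ => f p.1 p.2) hf (hg.pair hh)

@[fun_prop] theorem ci_add {f g : α → ℕ} (hf : CompIn A f) (hg : CompIn A g) :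
    CompIn A (fun x => f x + g x) := CompIn.comp₂ Primrec.nat_add.to_comp hf hg
@[fun_prop] theorem ci_sub {f g : α → ℕ} (hf : CompIn A f) (hg : CompIn A g) :
    CompIn A (fun x => f x - g x) := CompIn.comp₂ Primrec.nat_sub.to_comp hf hg
@[fun_prop] theorem ci_mul {f g : α → ℕ} (hf : CompIn A f) (hg : CompIn A g) :
    CompIn A (fun x => f x * g x) := CompIn.comp₂ Primrec.nat_mul.to_comp hf hg
@[fun_prop] theorem ci_max {f g : α → ℕ} (hf : CompIn A f) (hg : CompIn A g) :
    CompIn A (fun x => max (f x) (g x)) := CompIn.comp₂ Primrec.nat_max.to_comp hf hg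
@[fun_prop] theorem ci_natpair {f g : α → ℕ} (hf : CompIn A f) (hg : CompIn A g) :
    CompIn A (fun x => Nat.pair (f x) (g x)) := CompIn.comp₂ Primrec₂.natPair.to_comp hf hg
@[fun_prop] theorem ci_unpair {f : α → ℕ} (hf : CompIn A f) :
    CompIn A (fun x => (f x).unpair) := CompIn.comp_of Computable.unpair hf
@[fun_prop] theorem ci_append {f g : α → List β} (hf : CompIn A f) (hg : CompIn A g) :
    CompIn A (fun x => f x ++ g x) := CompIn.comp₂ Computable.list_append hf hg
@[fun_prop] theorem ci_cons {f : α → β} {g : α → List β} (hf : CompIn A f) (hg : CompIn A g) :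
    CompIn A (fun x => f x :: g x) := CompIn.comp₂ Computable.list_cons hf hg
@[fun_prop] theorem ci_length {f : α → List β} (hf : CompIn A f) :
    CompIn A (fun x => (f x).length) := CompIn.comp_of Computable.list_length hf
@[fun_prop] theorem ci_getElem {f : α → List β} {g : α → ℕ} (hf : CompIn A f)
    (hg : CompIn A g) : CompIn A (fun x => (f x)[g x]?) :=
  CompIn.comp₂ Computable.list_getElem? hf hg
@[fun_prop] theorem ci_encode {f : α → β} (hf : CompIn A f) :
    CompIn A (fun x => Encodable.encode (f x)) := CompIn.comp_of Computable.encode hf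
@[fun_prop] theorem ci_some {f : α → β} (hf : CompIn A f) :
    CompIn A (fun x => some (f x)) := CompIn.comp_of Computable.option_some hf

/-- monotonicity in the oracle -/
theorem CompIn.mono {f : α → β} (hf : CompIn A f) (h : Red A B) : CompIn B f := reMono hf h

theorem DecIn.mono {P : α → Prop} (hP : DecIn A P) (h : Red A B) : DecIn B P :=
  ⟨reMono hP.1 h, reMono hP.2 h⟩

theorem DecIn.of_eq {P Q : α → Prop} (hP : DecIn A P) (h : ∀ a, P a ↔ Q a) : DecIn A Q := by
  have : P = Q := funext fun a => propext (h a)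
  rw [← this]; exact hP

theorem DecIn.of_cp {P : α → Prop} (hP : ComputablePred P) : DecIn A P :=
  ⟨REIn.of_re hP.to_re, REIn.of_re hP.not.to_re⟩

theorem DecIn.mem {f : α → ℕ} (hf : Computable f) : DecIn A fun a => f a ∈ A :=
  ⟨REIn.mem hf, REIn.not_mem hf⟩

theorem DecIn.of_red {C : Set ℕ} (h : Red C A) : DecIn A (· ∈ C) := by
  rw [Red_iff] at h
  exact h

theorem DecIn.comp {P : β → Prop} {f : α → β} (hP : DecIn A P) (hf : CompIn A f) :
    DecIn A fun a => P (f a) :=
  ⟨REIn.subst hP.1 hf, REIn.subst (S := fun b => ¬ P b) hP.2 hf⟩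

theorem DecIn.not {P : α → Prop} (hP : DecIn A P) : DecIn A fun a => ¬ P a :=
  ⟨hP.2, hP.1.of_eq fun a => by simp⟩

theorem DecIn.and {P Q : α → Prop} (hP : DecIn A P) (hQ : DecIn A Q) :
    DecIn A fun a => P a ∧ Q a :=
  ⟨REIn.and hP.1 hQ.1, (REIn.or hP.2 hQ.2).of_eq fun a => by tauto⟩

theorem DecIn.or {P Q : α → Prop} (hP : DecIn A P) (hQ : DecIn A Q) :
    DecIn A fun a => P a ∨ Q a :=
  ⟨REIn.or hP.1 hQ.1, (REIn.and hP.2 hQ.2).of_eq fun a => by tauto⟩

theorem DecIn.imp {P Q : α → Prop} (hP : DecIn A P) (hQ : DecIn A Q) :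
    DecIn A fun a => P a → Q a :=
  (hP.not.or hQ).of_eq fun a => by tauto

theorem DecIn.iff {P Q : α → Prop} (hP : DecIn A P) (hQ : DecIn A Q) :
    DecIn A fun a => (P a ↔ Q a) :=
  ((hP.imp hQ).and (hQ.imp hP)).of_eq fun a => by tauto

theorem DecIn.const (P : Prop) : DecIn A fun _ : α => P :=
  ⟨REIn.of_re (RE.const P), REIn.of_re (RE.const _)⟩

/-- bounded quantification over a list computed relative to the oracle -/
theorem re_all_mem {S : α → β → Prop} (hS : REIn A fun x : α × β => S x.1 x.2) {l : α → List β}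
    (hl : CompIn A l) : REIn A fun a => ∀ b ∈ l a, S a b := by
  have h1 : REIn A fun x : α × List β => ∀ b ∈ x.2, S x.1 b :=
    REIn.all_mem (S := fun (x : α × List β) b => S x.1 b)
      (hS.comp (f := fun x : (α × List β) × β => (x.1.1, x.2)) (by fun_prop)) (l := Prod.snd)
      Computable.snd
  exact REIn.subst (f := fun a => (a, l a)) h1 (by fun_prop)

theorem re_ex_mem {S : α → β → Prop} (hS : REIn A fun x : α × β => S x.1 x.2) {l : α → List β}
    (hl : CompIn A l) : REIn A fun a => ∃ b ∈ l a, S a b := by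
  have h1 : REIn A fun x : α × List β => ∃ b, b ∈ x.2 ∧ S x.1 b := by
    refine REIn.ex (S := fun (x : α × List β) b => b ∈ x.2 ∧ S x.1 b) (REIn.and ?_ ?_)
    · exact REIn.of_re (RE.mem_list (f := fun x : (α × List β) × β => x.2)
        (l := fun x : (α × List β) × β => x.1.2) (by fun_prop) (by fun_prop))
    · exact hS.comp (f := fun x : (α × List β) × β => (x.1.1, x.2)) (by fun_prop)
  exact REIn.subst (f := fun a => (a, l a)) h1 (by fun_prop)

theorem DecIn.all_mem {S : α → β → Prop} (hS : DecIn A fun x : α × β => S x.1 x.2)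
    {l : α → List β} (hl : CompIn A l) : DecIn A fun a => ∀ b ∈ l a, S a b :=
  ⟨re_all_mem hS.1 hl, (re_ex_mem (S := fun a b => ¬ S a b) hS.2 hl).of_eq fun a => by simp⟩

theorem DecIn.ex_mem {S : α → β → Prop} (hS : DecIn A fun x : α × β => S x.1 x.2)
    {l : α → List β} (hl : CompIn A l) : DecIn A fun a => ∃ b ∈ l a, S a b :=
  ⟨re_ex_mem hS.1 hl, (re_all_mem (S := fun a b => ¬ S a b) hS.2 hl).of_eq fun a => by simp⟩

theorem ci_range {f : α → ℕ} (hf : CompIn A f) : CompIn A fun a => List.range (f a) :=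
  CompIn.comp_of Primrec.list_range.to_comp hf

attribute [fun_prop] ci_range

theorem DecIn.all_lt {S : α → ℕ → Prop} (hS : DecIn A fun x : α × ℕ => S x.1 x.2)
    {f : α → ℕ} (hf : CompIn A f) : DecIn A fun a => ∀ i < f a, S a i :=
  (DecIn.all_mem hS (ci_range hf)).of_eq fun a => by simp

theorem DecIn.ex_lt {S : α → ℕ → Prop} (hS : DecIn A fun x : α × ℕ => S x.1 x.2)
    {f : α → ℕ} (hf : CompIn A f) : DecIn A fun a => ∃ i < f a, S a i :=
  (DecIn.ex_mem hS (ci_range hf)).of_eq fun a => by simp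

theorem DecIn.eq {f g : α → β} (hf : CompIn A f) (hg : CompIn A g) :
    DecIn A fun a => f a = g a := by
  have h1 : DecIn A fun p : β × β => p.1 = p.2 := DecIn.of_cp (cp_eq Computable.fst Computable.snd)
  exact DecIn.comp (f := fun a => (f a, g a)) h1 (by fun_prop)

theorem DecIn.lt {f g : α → ℕ} (hf : CompIn A f) (hg : CompIn A g) :
    DecIn A fun a => f a < g a := by
  have h1 : DecIn A fun p : ℕ × ℕ => p.1 < p.2 := DecIn.of_cp (cp_lt Computable.fst Computable.snd)
  exact DecIn.comp (f := fun a => (f a, g a)) h1 (by fun_prop)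

theorem DecIn.le {f g : α → ℕ} (hf : CompIn A f) (hg : CompIn A g) :
    DecIn A fun a => f a ≤ g a := by
  have h1 : DecIn A fun p : ℕ × ℕ => p.1 ≤ p.2 := DecIn.of_cp (cp_le Computable.fst Computable.snd)
  exact DecIn.comp (f := fun a => (f a, g a)) h1 (by fun_prop)

theorem DecIn.memList {f : α → β} {l : α → List β} (hf : CompIn A f) (hl : CompIn A l) :
    DecIn A fun a => f a ∈ l a := by
  have h1 : DecIn A fun p : β × List β => p.1 ∈ p.2 :=
    DecIn.of_cp (cp_mem Computable.fst Computable.snd)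
  exact DecIn.comp (f := fun a => (f a, l a)) h1 (by fun_prop)

/-- a predicate c.e. in `A` is decidable in the jump of `A` -/
theorem DecIn.of_re_jump {P : α → Prop} (h : REIn A P) : DecIn (jump A) P := by
  obtain ⟨f, hf, h1⟩ := REIn_iff_jump.1 h
  exact (DecIn.mem hf).of_eq fun a => (h1 a).symm

/-- a co-c.e. predicate is decidable in the jump -/
theorem DecIn.of_pi_jump {P : α → Prop} (h : REIn A fun a => ¬ P a) : DecIn (jump A) P :=
  (DecIn.of_re_jump h).not.of_eq fun a => by simp

theorem DecIn.all_jump {S : α → β → Prop} (hS : DecIn A fun x : α × β => S x.1 x.2) :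
    DecIn (jump A) fun a => ∀ b, S a b := by
  refine DecIn.of_pi_jump ?_
  exact (REIn.ex (S := fun a b => ¬ S a b) hS.2).of_eq fun a => by simp

theorem DecIn.ex_jump {S : α → β → Prop} (hS : DecIn A fun x : α × β => S x.1 x.2) :
    DecIn (jump A) fun a => ∃ b, S a b := DecIn.of_re_jump (REIn.ex hS.1)

theorem CompIn.jump {f : α → β} (hf : CompIn A f) : CompIn (jump A) f := hf.mono (Red_jump A)

theorem DecIn.jump {P : α → Prop} (hP : DecIn A P) : DecIn (jump A) P := hP.mono (Red_jump A)

open Classical in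
/-- definition by cases -/
theorem CompIn.ite {P : α → Prop} {f g : α → β} (hP : DecIn A P) (hf : CompIn A f)
    (hg : CompIn A g) : CompIn A fun a => if P a then f a else g a := by
  have h1 : REIn A fun p : α × β => (P p.1 ∧ f p.1 = p.2) ∨ (¬ P p.1 ∧ g p.1 = p.2) :=
    REIn.or (REIn.and (hP.1.comp Computable.fst) hf) (REIn.and (hP.2.comp Computable.fst) hg)
  exact h1.of_eq fun p => by by_cases h : P p.1 <;> simp [h]

/-- unbounded search -/
theorem CompIn.find {P : α → ℕ → Prop} (hP : DecIn A fun x : α × ℕ => P x.1 x.2)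
    (h : ∀ a, ∃ n, P a n) :
    ∃ f : α → ℕ, CompIn A f ∧ ∀ a, P a (f a) ∧ ∀ n < f a, ¬ P a n := by
  classical
  refine ⟨fun a => Nat.find (h a), ?_, fun a => ⟨Nat.find_spec (h a), fun n hn => Nat.find_min _ hn⟩⟩
  have h1 : REIn A fun p : α × ℕ => P p.1 p.2 ∧ ∀ n < p.2, ¬ P p.1 n := by
    refine REIn.and hP.1 ?_
    refine REIn.all_lt (S := fun (p : α × ℕ) n => ¬ P p.1 n) ?_ Computable.snd
    exact hP.2.comp (f := fun x : (α × ℕ) × ℕ => (x.1.1, x.2)) (by fun_prop)
  exact h1.of_eq fun p => by rw [Nat.find_eq_iff]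

/-- unbounded search, when it is decidable whether the search succeeds -/
theorem CompIn.findOpt {P : α → ℕ → Prop} (hP : DecIn A fun x : α × ℕ => P x.1 x.2)
    (hE : DecIn A fun a => ∃ n, P a n) :
    ∃ f : α → Option ℕ, CompIn A f ∧ (∀ a n, f a = some n → P a n) ∧
      ∀ a, (∃ n, P a n) → (f a).isSome := by
  classical
  obtain ⟨g, hg, h⟩ := CompIn.find (A := A) (P := fun a n => P a n ∨ ¬ ∃ n, P a n)
    (hP.or (DecIn.comp (f := fun x : α × ℕ => x.1) hE.not (by fun_prop))) (fun a => by
      by_cases h : ∃ n, P a n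
      · obtain ⟨n, hn⟩ := h; exact ⟨n, Or.inl hn⟩
      · exact ⟨0, Or.inr h⟩)
  refine ⟨fun a => if ∃ n, P a n then some (g a) else none,
    CompIn.ite hE (by fun_prop) (by fun_prop), fun a n hn => ?_, fun a ha => by simp [ha]⟩
  by_cases hh : ∃ n, P a n
  · simp only [hh, if_true, Option.some.injEq] at hn
    rcases (h a).1 with h1 | h1
    · rwa [hn] at h1
    · exact absurd hh h1
  · simp [hh] at hn

/-- primitive recursion -/
theorem CompIn.iterate {f : α → β} {g : α × (ℕ × β) → β} (hf : CompIn A f) (hg : CompIn A g) :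
    CompIn A fun p : α × ℕ => (Nat.rec (f p.1) (fun n ih => g (p.1, (n, ih))) p.2 : β) := by
  have h1 : REIn A fun q : (α × ℕ) × β => ∃ l : List β, l.length = q.1.2 + 1 ∧
      (∃ b, l[0]? = some b ∧ f q.1.1 = b) ∧ l[q.1.2]? = some q.2 ∧
      ∀ i < q.1.2, ∃ b c, l[i]? = some b ∧ l[i+1]? = some c ∧ g (q.1.1, (i, b)) = c := by
    refine REIn.ex (S := fun (q : (α × ℕ) × β) (l : List β) => l.length = q.1.2 + 1 ∧
      (∃ b, l[0]? = some b ∧ f q.1.1 = b) ∧ l[q.1.2]? = some q.2 ∧
      ∀ i < q.1.2, ∃ b c, l[i]? = some b ∧ l[i+1]? = some c ∧ g (q.1.1, (i, b)) = c) ?_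
    refine REIn.and (REIn.of_re (RE.eq (by fun_prop) (by fun_prop))) (REIn.and ?_ (REIn.and
      (REIn.of_re (RE.eq (by fun_prop) (by fun_prop))) ?_))
    · refine REIn.ex (S := fun (x : ((α × ℕ) × β) × List β) b => x.2[0]? = some b ∧ f x.1.1.1 = b)
        (REIn.and (REIn.of_re (RE.eq (by fun_prop) (by fun_prop))) ?_)
      exact REIn.comp hf (f := fun x : (((α × ℕ) × β) × List β) × β => (x.1.1.1.1, x.2))
        (by fun_prop)
    · refine REIn.all_lt (S := fun (x : ((α × ℕ) × β) × List β) i => ∃ b c, x.2[i]? = some b ∧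
        x.2[i+1]? = some c ∧ g (x.1.1.1, (i, b)) = c) ?_ (by fun_prop)
      refine REIn.ex (S := fun (y : (((α × ℕ) × β) × List β) × ℕ) b => ∃ c, y.1.2[y.2]? = some b ∧
        y.1.2[y.2+1]? = some c ∧ g (y.1.1.1.1, (y.2, b)) = c) ?_
      refine REIn.ex (S := fun (y : ((((α × ℕ) × β) × List β) × ℕ) × β) c =>
        y.1.1.2[y.1.2]? = some y.2 ∧
        y.1.1.2[y.1.2+1]? = some c ∧ g (y.1.1.1.1.1, (y.1.2, y.2)) = c) ?_
      refine REIn.and (REIn.of_re (RE.eq (by fun_prop) (by fun_prop))) (REIn.and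
        (REIn.of_re (RE.eq (by fun_prop) (by fun_prop))) ?_)
      exact REIn.comp hg (f := fun y : (((((α × ℕ) × β) × List β) × ℕ) × β) × β =>
        ((y.1.1.1.1.1.1, (y.1.1.2, y.1.2)), y.2)) (by fun_prop)
  refine h1.of_eq fun q => ?_
  obtain ⟨⟨a, n⟩, b⟩ := q
  let F : ℕ → β := fun m => Nat.rec (f a) (fun n ih => g (a, (n, ih))) m
  show _ ↔ F n = b
  constructor
  · rintro ⟨l, h1, ⟨b0, h2, h3⟩, h4, h5⟩
    have key : ∀ i ≤ n, l[i]? = some (F i) := by
      intro i hi
      induction i with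
      | zero => rw [h2, ← h3]; rfl
      | succ i ih =>
        obtain ⟨b1, c1, e1, e2, e3⟩ := h5 i (by simpa using hi)
        rw [ih (by omega)] at e1
        rw [e2, ← e3, ← Option.some.inj e1]
    have := key n le_rfl
    simp only at h4
    rw [h4] at this
    exact (Option.some.inj this).symm
  · rintro rfl
    have hget : ∀ i ≤ n, ((List.range (n + 1)).map F)[i]? = some (F i) := by
      intro i hi
      rw [List.getElem?_map, List.getElem?_range (by omega)]
      rfl
    refine ⟨(List.range (n + 1)).map F, by simp, ⟨F 0, hget 0 (by omega), rfl⟩, hget n le_rfl,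
      fun i hi => ⟨F i, F (i + 1), hget i (le_of_lt hi), hget (i + 1) hi, rfl⟩⟩

/-- mapping a function computable relative to the oracle over a list -/
theorem CompIn.list_map {f : α × β → γ} {l : α → List β} (hf : CompIn A f) (hl : CompIn A l) :
    CompIn A fun a => (l a).map fun b => f (a, b) := by
  have h1 : REIn A fun q : (α × List β) × List γ => q.2.length = q.1.2.length ∧
      ∀ i < q.1.2.length, ∃ b c, q.1.2[i]? = some b ∧ q.2[i]? = some c ∧ f (q.1.1, b) = c := by
    refine REIn.and (REIn.of_re (RE.eq (by fun_prop) (by fun_prop))) ?_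
    refine REIn.all_lt (S := fun (q : (α × List β) × List γ) i => ∃ b c, q.1.2[i]? = some b ∧
      q.2[i]? = some c ∧ f (q.1.1, b) = c) ?_ (by fun_prop)
    refine REIn.ex (S := fun (y : ((α × List β) × List γ) × ℕ) b => ∃ c, y.1.1.2[y.2]? = some b ∧
      y.1.2[y.2]? = some c ∧ f (y.1.1.1, b) = c) ?_
    refine REIn.ex (S := fun (y : (((α × List β) × List γ) × ℕ) × β) c =>
      y.1.1.1.2[y.1.2]? = some y.2 ∧ y.1.1.2[y.1.2]? = some c ∧ f (y.1.1.1.1, y.2) = c) ?_
    refine REIn.and (REIn.of_re (RE.eq (by fun_prop) (by fun_prop))) (REIn.and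
        (REIn.of_re (RE.eq (by fun_prop) (by fun_prop))) ?_)
    exact REIn.comp hf (f := fun y : ((((α × List β) × List γ) × ℕ) × β) × γ =>
      ((y.1.1.1.1.1, y.1.2), y.2)) (by fun_prop)
  have h2 : CompIn A fun x : α × List β => x.2.map fun b => f (x.1, b) := by
    refine h1.of_eq fun q => ?_
    obtain ⟨⟨a, l⟩, m⟩ := q
    simp only
    constructor
    · rintro ⟨h3, h4⟩
      refine List.ext_getElem? fun i => ?_
      by_cases hi : i < l.length
      · obtain ⟨b, c, e1, e2, e3⟩ := h4 i hi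
        rw [List.getElem?_map, e1, e2, ← e3]; rfl
      · rw [List.getElem?_eq_none (by simpa using hi), List.getElem?_eq_none (by omega)]
    · rintro rfl
      refine ⟨by simp, fun i hi => ⟨l[i], f (a, l[i]), List.getElem?_eq_getElem hi, ?_, rfl⟩⟩
      rw [List.getElem?_map, List.getElem?_eq_getElem hi]; rfl
  exact CompIn.comp (g := fun a => (a, l a)) h2 (by fun_prop)

/-- a computable function of one variable gives a function of lists -/
theorem ci_row {f g : α → ℕ} (hf : CompIn A f) (hg : CompIn A g) :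
    DecIn A fun a => g a ∈ Rw A (f a) :=
  DecIn.comp (P := (· ∈ A)) (f := fun a => Nat.pair (f a) (g a)) (DecIn.mem Computable.id)
    (by fun_prop)

end

/-- monotonicity of the jump -/
theorem red_jump_mono {A B : Set ℕ} (h : Red A B) : Red (jump A) (jump B) := by
  rw [Red_iff]
  have h1 : REIn B (· ∈ jump A) := reMono mem_jump_re h
  exact DecIn.of_re_jump h1

theorem red_jump_iter_mono {A B : Set ℕ} (h : Red A B) (n : ℕ) :
    Red (jump^[n] A) (jump^[n] B) := by
  induction n with
  | zero => exact h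
  | succ n ih =>
    rw [Function.iterate_succ_apply', Function.iterate_succ_apply']
    exact red_jump_mono ih

theorem red_self_jump_iter (A : Set ℕ) (n : ℕ) : Red A (jump^[n] A) := by
  induction n with
  | zero => exact Red.refl A
  | succ n ih =>
    rw [Function.iterate_succ_apply']
    exact Red.trans ih (Red_jump _)

theorem red_jump_iter_le (A : Set ℕ) {m n : ℕ} (h : m ≤ n) : Red (jump^[m] A) (jump^[n] A) := by
  obtain ⟨k, rfl⟩ := Nat.exists_eq_add_of_le' h
  rw [Function.iterate_add_apply]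
  exact red_self_jump_iter _ k

end Pool.Agent.H623R3.JC
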